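import Pool.Agent.Helper61.KT.Sfour

/-!
# `K` has no representation of degree at most three over a commutative ring
-/

set_option autoImplicit false

open Matrix
open scoped MatrixGroups

namespace Pool.Agent.Helper61.KT

open Pool.Agent.Helper79.KF

/-- `K` is perfect -/
theorem trivial_comm {M : Type*} [CommGroup M] (φ : K →* M) : φ = 1 := by
  have hC := (allRel φ).relC
  apply trivial_of_gen φ
  have h2 : (φ (gen 1) * φ (gen 0) * (φ (gen 1))⁻¹ * φ (gen 2)) ^ 2 = 1 := hC.h2
  have x2 : φ (gen 2) ^ 2 = 1 := hC.x2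
  rw [_root_.mul_comm (φ (gen 1)) (φ (gen 0)), mul_inv_cancel_right, mul_pow, x2, mul_one] at h2
  exact pow3_pow2 hC.a3 h2

theorem trivial_pgl_le {F : Type*} [Field F] {n : ℕ} (hn : n ≤ 3) (φ : K →* PGL(n, F)) :
    φ = 1 := by
  interval_cases n
  · exact trivial_le_one (by decide) φ
  · exact trivial_le_one (by decide) φ
  · exact trivial_pgl φ
  · exact trivial_pgl3 φ

theorem trivial_gl_field {F : Type*} [Field F] {n : ℕ} (hn : n ≤ 3) (φ : K →* GL (Fin n) F) :
    φ = 1 := by
  have h := trivial_pgl_le hn (ProjGenLinGroup.mk.comp φ)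
  have hc : ∀ k, φ k ∈ Subgroup.center (GL (Fin n) F) := fun k =>
    ProjGenLinGroup.mk_eq_one.1 (DFunLike.congr_fun h k)
  let _ : CommGroup (Subgroup.center (GL (Fin n) F)) :=
    { (inferInstance : Group (Subgroup.center (GL (Fin n) F))) with
      mul_comm := fun a b => Subtype.ext ((Subgroup.mem_center_iff.1 b.2 a).trans rfl) }
  have h2 := trivial_comm (M := Subgroup.center (GL (Fin n) F)) (φ.codRestrict _ hc)
  refine MonoidHom.ext fun k => ?_
  have h3 := DFunLike.congr_fun h2 k
  exact congrArg Subtype.val h3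

theorem step {S : Type*} [CommRing S] {n : ℕ} (I : Ideal S) (φ : K →* GL (Fin n) S) (m : ℕ)
    (hm : 1 ≤ m)
    (h : ∀ k i j, ((φ k : GL (Fin n) S) : Matrix (Fin n) (Fin n) S) i j -
      (1 : Matrix (Fin n) (Fin n) S) i j ∈ I ^ m) :
    ∀ k i j, ((φ k : GL (Fin n) S) : Matrix (Fin n) (Fin n) S) i j -
      (1 : Matrix (Fin n) (Fin n) S) i j ∈ I ^ (m + 1) := by
  intro k i j
  let ψ : K →* Multiplicative (S ⧸ I ^ (m + 1)) :=
    { toFun := fun k => Multiplicative.ofAdd (Ideal.Quotient.mk (I ^ (m + 1))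
        (((φ k : GL (Fin n) S) : Matrix (Fin n) (Fin n) S) i j -
          (1 : Matrix (Fin n) (Fin n) S) i j))
      map_one' := by simp
      map_mul' := by
        intro k l
        rw [← ofAdd_add, ← map_add]
        congr 1
        rw [Ideal.Quotient.eq]
        have e : ((φ (k * l) : GL (Fin n) S) : Matrix (Fin n) (Fin n) S) i j -
            (1 : Matrix (Fin n) (Fin n) S) i j -
            ((((φ k : GL (Fin n) S) : Matrix (Fin n) (Fin n) S) i j -
              (1 : Matrix (Fin n) (Fin n) S) i j) +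
            (((φ l : GL (Fin n) S) : Matrix (Fin n) (Fin n) S) i j -
              (1 : Matrix (Fin n) (Fin n) S) i j)) =
            ((((φ k : GL (Fin n) S) : Matrix (Fin n) (Fin n) S) - 1) *
              (((φ l : GL (Fin n) S) : Matrix (Fin n) (Fin n) S) - 1)) i j := by
          rw [map_mul, Units.val_mul, sub_mul, mul_sub, mul_one, one_mul, Matrix.sub_apply,
            Matrix.sub_apply, Matrix.sub_apply]
          ring
        rw [e, Matrix.mul_apply]
        refine Ideal.sum_mem _ fun s _ => ?_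
        have h1 := Ideal.mul_mem_mul (h k i s) (h l s j)
        rw [← pow_add] at h1
        exact Ideal.pow_le_pow_right (by omega) h1 }
  have h1 := DFunLike.congr_fun (trivial_comm ψ) k
  exact Ideal.Quotient.eq_zero_iff_mem.1 h1

theorem base {S : Type*} [CommRing S] {n : ℕ} (hn : n ≤ 3) (I : Ideal S) (hI : I.IsMaximal)
    (φ : K →* GL (Fin n) S) (k : K) (i j : Fin n) :
    ((φ k : GL (Fin n) S) : Matrix (Fin n) (Fin n) S) i j -
      (1 : Matrix (Fin n) (Fin n) S) i j ∈ I := by
  let _ := Ideal.Quotient.field I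
  have h := trivial_gl_field hn ((GeneralLinearGroup.map (Ideal.Quotient.mk I)).comp φ)
  have h1 := DFunLike.congr_fun h k
  have h2 := congrArg (fun g : GL (Fin n) (S ⧸ I) => (g : Matrix (Fin n) (Fin n) (S ⧸ I)) i j) h1
  rw [← Ideal.Quotient.eq]
  have h3 : (Ideal.Quotient.mk I) (((φ k : GL (Fin n) S) : Matrix (Fin n) (Fin n) S) i j) =
      (1 : Matrix (Fin n) (Fin n) (S ⧸ I)) i j := h2
  rw [h3, Matrix.one_apply, Matrix.one_apply]
  split_ifs <;> simp

theorem all_pow {S : Type*} [CommRing S] {n : ℕ} (hn : n ≤ 3) (I : Ideal S) (hI : I.IsMaximal)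
    (φ : K →* GL (Fin n) S) (r : ℕ) (k : K) (i j : Fin n) :
    ((φ k : GL (Fin n) S) : Matrix (Fin n) (Fin n) S) i j -
      (1 : Matrix (Fin n) (Fin n) S) i j ∈ I ^ (r + 1) := by
  induction r generalizing k i j with
  | zero => rw [zero_add, pow_one]; exact base hn I hI φ k i j
  | succ r ih => exact step I φ (r + 1) (by omega) ih k i j

theorem trivial_noeth {S : Type*} [CommRing S] [IsNoetherianRing S] {n : ℕ} (hn : n ≤ 3)
    (φ : K →* GL (Fin n) S) : φ = 1 := by
  refine MonoidHom.ext fun k => Units.ext ?_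
  ext i j
  rw [MonoidHom.one_apply, Units.val_one, ← sub_eq_zero]
  set x : S := ((φ k : GL (Fin n) S) : Matrix (Fin n) (Fin n) S) i j -
      (1 : Matrix (Fin n) (Fin n) S) i j with hx
  by_contra hne
  have hA : Ideal.torsionOf S S x ≠ ⊤ := by
    intro h
    have h1 : (1 : S) ∈ Ideal.torsionOf S S x := by rw [h]; trivial
    rw [Ideal.mem_torsionOf_iff, one_smul] at h1
    exact hne h1
  obtain ⟨I, hI, hle⟩ := Ideal.exists_le_maximal _ hA
  have hmem : x ∈ (⨅ i : ℕ, I ^ i • (⊤ : Submodule S S)) := by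
    rw [Submodule.mem_iInf]
    intro r
    have h1 := all_pow hn I hI φ r k i j
    have h2 : x ∈ I ^ r := Ideal.pow_le_pow_right (Nat.le_succ r) h1
    have h3 : x = x • (1 : S) := by rw [smul_eq_mul, mul_one]
    rw [h3]
    exact Submodule.smul_mem_smul h2 trivial
  obtain ⟨r, hr⟩ := (Ideal.mem_iInf_smul_pow_eq_bot_iff I x).1 hmem
  have h1 : (1 - (r : S)) ∈ Ideal.torsionOf S S x := by
    rw [Ideal.mem_torsionOf_iff, sub_smul, one_smul, hr, sub_self]
  have h2 : (1 : S) ∈ I := by
    have := I.add_mem (hle h1) r.2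
    rwa [sub_add_cancel] at this
  exact hI.ne_top ((Ideal.eq_top_iff_one I).2 h2)

theorem map_injective {S R : Type*} [CommRing S] [CommRing R] {n : ℕ} (f : S →+* R)
    (hf : Function.Injective f) :
    Function.Injective (GeneralLinearGroup.map (n := Fin n) f) := by
  intro x y h
  apply Units.ext
  ext i j
  apply hf
  exact congrArg (fun g : GL (Fin n) R => (g : Matrix (Fin n) (Fin n) R) i j) h

/-- an invertible matrix with entries in a subring, with inverse over the subring -/
theorem mem_range {R : Type*} [CommRing R] {n : ℕ} (S : Subalgebra ℤ R) (g : GL (Fin n) R)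
    (h1 : ∀ i j, (g : Matrix (Fin n) (Fin n) R) i j ∈ S)
    (h2 : ∀ i j, ((g⁻¹ : GL (Fin n) R) : Matrix (Fin n) (Fin n) R) i j ∈ S) :
    g ∈ (GeneralLinearGroup.map (n := Fin n) (S.val : S →+* R)).range := by
  have e1 : (g : Matrix (Fin n) (Fin n) R) * ((g⁻¹ : GL (Fin n) R) : Matrix (Fin n) (Fin n) R)
      = 1 := by rw [← Units.val_mul, mul_inv_cancel, Units.val_one]
  have e2 : ((g⁻¹ : GL (Fin n) R) : Matrix (Fin n) (Fin n) R) * (g : Matrix (Fin n) (Fin n) R)
      = 1 := by rw [← Units.val_mul, inv_mul_cancel, Units.val_one]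
  refine ⟨⟨fun i j => ⟨_, h1 i j⟩, fun i j => ⟨_, h2 i j⟩, ?_, ?_⟩, ?_⟩
  · ext i j
    have e3 := congrArg (fun M : Matrix (Fin n) (Fin n) R => M i j) e1
    simp only [Matrix.mul_apply] at e3
    rw [Matrix.mul_apply]
    simp only [AddSubmonoidClass.coe_finsetSum, MulMemClass.mk_mul_mk]
    rw [e3, Matrix.one_apply, Matrix.one_apply]
    split_ifs <;> simp
  · ext i j
    have e3 := congrArg (fun M : Matrix (Fin n) (Fin n) R => M i j) e2
    simp only [Matrix.mul_apply] at e3
    rw [Matrix.mul_apply]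
    simp only [AddSubmonoidClass.coe_finsetSum, MulMemClass.mk_mul_mk]
    rw [e3, Matrix.one_apply, Matrix.one_apply]
    split_ifs <;> simp
  · apply Units.ext
    ext i j
    rfl

theorem trivial_ring {R : Type*} [CommRing R] {n : ℕ} (hn : n ≤ 3) (φ : K →* GL (Fin n) R) :
    φ = 1 := by
  set T : Set R := Set.range (fun t : Fin 6 × Fin n × Fin n =>
      ((φ (gen t.1) : GL (Fin n) R) : Matrix (Fin n) (Fin n) R) t.2.1 t.2.2) ∪
    Set.range (fun t : Fin 6 × Fin n × Fin n =>
      (((φ (gen t.1))⁻¹ : GL (Fin n) R) : Matrix (Fin n) (Fin n) R) t.2.1 t.2.2) with hT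
  have hfin : T.Finite := (Set.finite_range _).union (Set.finite_range _)
  set S : Subalgebra ℤ R := Algebra.adjoin ℤ T with hS
  have hft : Algebra.FiniteType ℤ S := by
    rw [← Subalgebra.fg_iff_finiteType]
    exact ⟨hfin.toFinset, by rw [Set.Finite.coe_toFinset]⟩
  have hno : IsNoetherianRing S := Algebra.FiniteType.isNoetherianRing ℤ S
  have hinj := map_injective (n := n) (S.val : S →+* R) Subtype.val_injective
  have hle : φ.range ≤ (GeneralLinearGroup.map (n := Fin n) (S.val : S →+* R)).range := by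
    apply range_le
    intro i
    apply mem_range
    · intro a b
      exact Algebra.subset_adjoin (Or.inl ⟨(i, a, b), rfl⟩)
    · intro a b
      exact Algebra.subset_adjoin (Or.inr ⟨(i, a, b), rfl⟩)
  let e := MonoidHom.ofInjective hinj
  let ψ : K →* GL (Fin n) S := e.symm.toMonoidHom.comp (φ.codRestrict _ fun k => hle ⟨k, rfl⟩)
  have hψ := trivial_noeth hn ψ
  refine MonoidHom.ext fun k => ?_
  have h1 : e.symm (φ.codRestrict _ (fun k => hle ⟨k, rfl⟩) k) = 1 := DFunLike.congr_fun hψ k
  rw [MulEquiv.symm_apply_eq, map_one] at h1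
  exact congrArg Subtype.val h1

end Pool.Agent.Helper61.KT
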