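import Pool.Agent.Helper61.KT.Bi
import Pool.Agent.Helper61.KT.Ring

/-!
# Representations over finite fields in which `C` and `D` have small eigenspaces
-/

set_option autoImplicit false
set_option linter.unusedSectionVars false

open Matrix
open scoped MatrixGroups

namespace Pool.Agent.Helper61.KT

open Pool.Agent.Helper79.KF

variable {F : Type*} [Field F]

theorem trivial_end {U : Type*} [AddCommGroup U] [Module F U] [FiniteDimensional F U]
    (hU : Module.finrank F U ≤ 3) (ρ : K →* Module.End F U) : ρ = 1 := by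
  let b := Module.finBasis F U
  let e : Module.End F U →* Matrix (Fin (Module.finrank F U)) (Fin (Module.finrank F U)) F :=
    (LinearMap.toMatrixAlgEquiv b).toRingEquiv.toRingHom.toMonoidHom
  have h := trivial_gl_field hU (e.comp ρ).toHomUnits
  refine MonoidHom.ext fun k => ?_
  have h1 := DFunLike.congr_fun h k
  have h2 := congrArg (fun g : GL (Fin (Module.finrank F U)) F =>
    (g : Matrix (Fin (Module.finrank F U)) (Fin (Module.finrank F U)) F)) h1
  have h3 : LinearMap.toMatrixAlgEquiv b (ρ k) = LinearMap.toMatrixAlgEquiv b 1 := by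
    rw [map_one]; exact h2
  exact (LinearMap.toMatrixAlgEquiv b).injective h3

variable {ι : Type*} [Fintype ι] [DecidableEq ι]

theorem dichotomy {a b c : GL ι F} (h : Rel a b c) (h2 : (2 : F) ≠ 0)
    (hr : ((c : Matrix ι ι F) - 1).rank ≤ 2) (hc : c ≠ 1) :
    (∃ Z : Matrix ι ι F, (a : Matrix ι ι F) * Z = Z ∧ (b : Matrix ι ι F) * Z = Z ∧
      Z * (a : Matrix ι ι F) = Z ∧ Z * (b : Matrix ι ι F) = Z ∧ Z * Z = (4 : F) • Z ∧
      ((4 : F) • 1 - Z).rank ≤ 3) ∨
    ((a : Matrix ι ι F) * (b : Matrix ι ι F)).trace -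
      ((a : Matrix ι ι F) * ((b⁻¹ : GL ι F) : Matrix ι ι F)).trace = 1 := by
  have R := rr h
  have hc' : (c : Matrix ι ι F) ≠ 1 := fun e => hc (Units.ext e)
  rcases dich R h2 hr hc' with e | e
  · right
    exact plus R h2 hr hc' e
  · left
    obtain ⟨k1, k2, k3, k4⟩ := minus R h2 hr hc' e
    refine ⟨_, k1, k2, k3, k4, ?_, ?_⟩
    · rw [x0_sq R, four]
    · have e4 : (4 : F) • (1 : Matrix ι ι F) = 4 • (1 : Matrix ι ι F) := by module
      rw [e4, x_sum4]
      refine le_trans (rank_add_le' _ _) ?_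
      have r3 := rank_x3 R h2 hr
      have r12 : (X1 (c : Matrix ι ι F) ((a⁻¹ * c * a : GL ι F) : Matrix ι ι F) +
          X2 (c : Matrix ι ι F) ((a⁻¹ * c * a : GL ι F) : Matrix ι ι F)).rank ≤ 2 := by
        refine le_trans (rank_add_le' _ _) ?_
        have r1 := rank_x1 R h2 hr
        have r2 := rank_x2 R h2 hr
        omega
      omega

theorem fix_trivial [Finite F] (h2 : (2 : F) ≠ 0) (φ : K →* GL ι F) (Z : Matrix ι ι F)
    (ha : (φ (gen 0) : Matrix ι ι F) * Z = Z) (hb : (φ (gen 1) : Matrix ι ι F) * Z = Z)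
    (ha' : Z * (φ (gen 0) : Matrix ι ι F) = Z) (hb' : Z * (φ (gen 1) : Matrix ι ι F) = Z)
    (hr : ((4 : F) • 1 - Z).rank ≤ 3) : φ = 1 := by
  have h4 := four_ne h2
  -- all of `K` fixes `Z`
  let H : Subgroup (GL ι F) :=
    { carrier := {g | (g : Matrix ι ι F) * Z = Z ∧ Z * (g : Matrix ι ι F) = Z}
      one_mem' := by simp
      mul_mem' := by
        rintro x y ⟨x1, x2⟩ ⟨y1, y2⟩
        refine ⟨?_, ?_⟩
        · rw [Units.val_mul, mul_assoc, y1, x1]
        · rw [Units.val_mul, ← mul_assoc, x2, y2]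
      inv_mem' := by
        rintro x ⟨x1, x2⟩
        refine ⟨?_, ?_⟩
        · calc ((x⁻¹ : GL ι F) : Matrix ι ι F) * Z =
              ((x⁻¹ : GL ι F) : Matrix ι ι F) * ((x : Matrix ι ι F) * Z) := by rw [x1]
            _ = Z := by rw [← mul_assoc, ← Units.val_mul, inv_mul_cancel, Units.val_one, one_mul]
        · calc Z * ((x⁻¹ : GL ι F) : Matrix ι ι F) =
              Z * (x : Matrix ι ι F) * ((x⁻¹ : GL ι F) : Matrix ι ι F) := by rw [x2]
            _ = Z := by rw [mul_assoc, ← Units.val_mul, mul_inv_cancel, Units.val_one, mul_one] }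
  have hle : φ.range ≤ H := by
    rw [generated φ, Subgroup.closure_le]
    rintro y (rfl | hy)
    · exact ⟨ha, ha'⟩
    · obtain rfl : y = φ (gen 1) := hy
      exact ⟨hb, hb'⟩
  have hfix : ∀ k, (φ k : Matrix ι ι F) * Z = Z ∧ Z * (φ k : Matrix ι ι F) = Z :=
    fun k => hle ⟨k, rfl⟩
  set E : Matrix ι ι F := 1 - (4 : F)⁻¹ • Z with hE
  have hcomm : ∀ k, (φ k : Matrix ι ι F) * E = E * (φ k : Matrix ι ι F) := by
    intro k
    rw [hE, mul_sub, sub_mul, mul_one, one_mul, mul_smul_comm, smul_mul_assoc, (hfix k).1,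
      (hfix k).2]
  have hrE : Module.finrank F (LinearMap.range E.mulVecLin) ≤ 3 := by
    have : E.rank ≤ ((4 : F) • (1 : Matrix ι ι F) - Z).rank := by
      refine rank_conj_le (S := (4 : F)⁻¹ • 1) (T := 1) ?_
      rw [mul_one, smul_mul_assoc, one_mul, smul_sub, smul_smul, inv_mul_cancel₀ h4, one_smul]
    exact le_trans this hr
  have hmap : ∀ k, ∀ x ∈ LinearMap.range E.mulVecLin,
      (φ k : Matrix ι ι F).mulVecLin x ∈ LinearMap.range E.mulVecLin := by
    rintro k _ ⟨v, rfl⟩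
    refine ⟨(φ k : Matrix ι ι F) *ᵥ v, ?_⟩
    rw [mulVecLin_apply, mulVecLin_apply, mulVecLin_apply, mulVec_mulVec, mulVec_mulVec, hcomm]
  let ρ : K →* Module.End F (LinearMap.range E.mulVecLin) :=
    { toFun := fun k => ((φ k : Matrix ι ι F).mulVecLin).restrict (hmap k)
      map_one' := by
        ext x
        simp
      map_mul' := by
        intro k l
        ext x
        simp [mulVec_mulVec] }
  have hρ := trivial_end hrE ρ
  refine MonoidHom.ext fun k => Units.ext ?_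
  have h1 : (φ k : Matrix ι ι F) * E = E := by
    apply Matrix.toLin'.injective
    refine LinearMap.ext fun v => ?_
    have h3 := DFunLike.congr_fun hρ k
    have h4 := congrArg (fun T : Module.End F (LinearMap.range E.mulVecLin) =>
      ((T ⟨E.mulVecLin v, ⟨v, rfl⟩⟩ : LinearMap.range E.mulVecLin) : ι → F)) h3
    have h5 : (φ k : Matrix ι ι F).mulVecLin (E.mulVecLin v) = E.mulVecLin v := h4
    rw [mulVecLin_apply, mulVecLin_apply, mulVec_mulVec] at h5
    rw [toLin'_apply, toLin'_apply, h5]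
  have h5 : (1 : Matrix ι ι F) = E + (4 : F)⁻¹ • Z := by rw [hE, sub_add_cancel]
  calc (φ k : Matrix ι ι F) = (φ k : Matrix ι ι F) * (E + (4 : F)⁻¹ • Z) := by
        rw [← h5, mul_one]
    _ = E + (4 : F)⁻¹ • Z := by rw [mul_add, h1, mul_smul_comm, (hfix k).1]
    _ = ((1 : K →* GL ι F) k : Matrix ι ι F) := by
        rw [← h5, MonoidHom.one_apply, Units.val_one]

theorem main_finite [Finite F] (h2 : (2 : F) ≠ 0) (φ : K →* GL ι F)
    (hrC : ((φ (gen 2) : Matrix ι ι F) - 1).rank ≤ 2)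
    (hrD : ((φ (gen 3) : Matrix ι ι F) - 1).rank ≤ 2) : φ = 1 := by
  have R := allRel φ
  have hC : Rel (φ (gen 0)) (φ (gen 1)) (φ (gen 2)) := R.relC
  have hD : Rel (φ (gen 0)) (φ (gen 1))⁻¹ (φ (gen 3)) := R.relD
  by_cases hc : φ (gen 2) = 1
  · rw [hc] at hC; exact trivial_of_gen φ (rel_one hC)
  by_cases hd : φ (gen 3) = 1
  · rw [hd] at hD; exact trivial_of_gen φ (rel_one hD)
  rcases dichotomy hC h2 hrC hc with ⟨Z, z1, z2, z3, z4, -, z6⟩ | tC
  · exact fix_trivial h2 φ Z z1 z2 z3 z4 z6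
  rcases dichotomy hD h2 hrD hd with ⟨Z, z1, z2, z3, z4, -, z6⟩ | tD
  · have bb : (φ (gen 1) : Matrix ι ι F) * (((φ (gen 1))⁻¹ : GL ι F) : Matrix ι ι F) = 1 := by
      rw [← Units.val_mul, mul_inv_cancel, Units.val_one]
    have bb' : (((φ (gen 1))⁻¹ : GL ι F) : Matrix ι ι F) * (φ (gen 1) : Matrix ι ι F) = 1 := by
      rw [← Units.val_mul, inv_mul_cancel, Units.val_one]
    refine fix_trivial h2 φ Z z1 ?_ z3 ?_ z6
    · calc (φ (gen 1) : Matrix ι ι F) * Z = (φ (gen 1) : Matrix ι ι F) *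
            ((((φ (gen 1))⁻¹ : GL ι F) : Matrix ι ι F) * Z) := by rw [z2]
        _ = Z := by rw [← mul_assoc, bb, one_mul]
    · calc Z * (φ (gen 1) : Matrix ι ι F) = Z * (((φ (gen 1))⁻¹ : GL ι F) : Matrix ι ι F) *
            (φ (gen 1) : Matrix ι ι F) := by rw [z4]
        _ = Z := by rw [mul_assoc, bb', mul_one]
  · exfalso
    rw [inv_inv] at tD
    exact h2 (by linear_combination -tC - tD)

theorem rank_le_of_card {a b c : GL ι F} (h : Rel a b c) (h2 : (2 : F) ≠ 0)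
    (hn : Fintype.card ι ≤ 5) : ((c : Matrix ι ι F) - 1).rank ≤ 2 := by
  have R := rr h
  have h4 := four_ne h2
  set C : Matrix ι ι F := (c : Matrix ι ι F) with hC
  set P : Matrix ι ι F := ((a⁻¹ * c * a : GL ι F) : Matrix ι ι F) with hP
  have e1 : X1 C P * X1 C P = (4 : F) • X1 C P := by rw [x1_sq R, four]
  have r1 := rank_two h4 e1 (x12 R) ⟨_, x1_eq⟩ ⟨_, x2_eq⟩
  have r2 : (C - 1).rank + (X3 C P).rank ≤ (1 : Matrix ι ι F).rank := by
    refine rank_two (s := -2) (neg_ne_zero.2 h2) ?_ ?_ ⟨_, (one_mul _).symm⟩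
      ⟨_, (one_mul _).symm⟩
    · have : (C - 1) * (C - 1) = C * C - C - C + 1 := by noncomm_ring
      rw [this, R.cc]; module
    · rw [sub_mul, one_mul, c_x3 R, sub_self]
  rw [rank_one] at r2
  have q1 : (X1 C P).rank ≤ (X3 C P).rank := rank_conj_le
    (S := ((a⁻¹ : GL ι F) : Matrix ι ι F)) (T := (a : Matrix ι ι F)) (by
      rw [mul_assoc, ← a_x1 R, ← mul_assoc, R.aia, one_mul])
  have q2 : (X2 C P).rank ≤ (X3 C P).rank := rank_conj_le
    (S := (a : Matrix ι ι F)) (T := ((a⁻¹ : GL ι F) : Matrix ι ι F)) (by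
      rw [a_x3 R, mul_assoc, R.aai, mul_one])
  have q3 : (X3 C P).rank ≤ (X1 C P).rank := rank_conj_le
    (S := (a : Matrix ι ι F)) (T := ((a⁻¹ : GL ι F) : Matrix ι ι F)) (by
      rw [a_x1 R, mul_assoc, R.aai, mul_one])
  have q4 : (X1 C P).rank ≤ (X2 C P).rank := rank_conj_le
    (S := ((b⁻¹ * c * b : GL ι F) : Matrix ι ι F)) (T := ((b⁻¹ * c * b : GL ι F) : Matrix ι ι F))
      (by rw [q_x2 R, mul_assoc, R.qq, mul_one])
  have r3 : (C - 1).rank ≤ (X1 C P + X2 C P).rank := by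
    refine rank_conj_le (S := (-(2 : F)⁻¹) • 1) (T := 1) ?_
    have e2 : (2 : ℕ) • (1 - C) = (2 : F) • (1 - C) := by module
    rw [mul_one, x_sum, e2, smul_mul_assoc, one_mul, smul_smul, neg_mul, inv_mul_cancel₀ h2]
    module
  have r4 := rank_add_le' (X1 C P) (X2 C P)
  omega

theorem main_five [Finite F] (h2 : (2 : F) ≠ 0) (hn : Fintype.card ι ≤ 5) (φ : K →* GL ι F) :
    φ = 1 := by
  have R := allRel φ
  have hC : Rel (φ (gen 0)) (φ (gen 1)) (φ (gen 2)) := R.relC
  have hD : Rel (φ (gen 0)) (φ (gen 1))⁻¹ (φ (gen 3)) := R.relD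
  exact main_finite h2 φ (rank_le_of_card hC h2 hn) (rank_le_of_card hD h2 hn)

end Pool.Agent.Helper61.KT
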