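import Pool.Agent.Helper61.KT.Fin

/-!
# Reduction to finite fields
-/

set_option autoImplicit false
set_option linter.unusedSectionVars false

open Matrix
open scoped MatrixGroups

namespace Pool.Agent.Helper61.KT

open Pool.Agent.Helper79.KF

/-- the integers form a Jacobson ring -/
theorem jacobson_int : IsJacobsonRing ℤ := by
  rw [isJacobsonRing_iff_prime_eq]
  intro P hP
  by_cases h : P = ⊥
  · subst h
    rw [eq_bot_iff]
    intro x hx
    rw [Ideal.mem_jacobson_bot] at hx
    have h1 := hx x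
    rw [Int.isUnit_iff] at h1
    have h2 : x * x = 0 ∨ x * x < 0 := by
      rcases h1 with h1 | h1
      · left; linarith
      · right; linarith
    rcases h2 with h2 | h2
    · simpa using h2
    · exfalso; nlinarith [mul_self_nonneg x]
  · have hmax : P.IsMaximal := IsPrime.to_maximal_ideal h
    exact Ideal.jacobson_eq_self_of_isMaximal

theorem finite_field_of_int {k : Type*} [Field k] [Module.Finite ℤ k] : Finite k := by
  obtain ⟨p, hp⟩ := CharP.exists k
  rcases Nat.eq_zero_or_pos p with h0 | h0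
  · exfalso
    subst h0
    have hz : CharZero k := CharP.charP_to_charZero k
    have hi : Algebra.IsIntegral ℤ k := inferInstance
    have hf : IsField ℤ := isField_of_isIntegral_of_isField
      (by rw [algebraMap_int_eq]; exact RingHom.injective_int _) (Field.toIsField k)
    obtain ⟨y, hy⟩ := hf.mul_inv_cancel (show (2 : ℤ) ≠ 0 by norm_num)
    omega
  · refine Module.finite_of_fg_torsion k ?_
    intro x
    refine ⟨⟨(p : ℤ), ?_⟩, ?_⟩
    · rw [mem_nonZeroDivisors_iff_ne_zero]
      exact_mod_cast h0.ne'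
    · change (p : ℤ) • x = 0
      rw [zsmul_eq_mul, Int.cast_natCast, CharP.cast_eq_zero, zero_mul]

theorem base_of {S : Type*} [CommRing S] {n : ℕ} (I : Ideal S) (φ : K →* GL (Fin n) S)
    (h : (GeneralLinearGroup.map (n := Fin n) (Ideal.Quotient.mk I)).comp φ = 1) (k : K)
    (i j : Fin n) :
    ((φ k : GL (Fin n) S) : Matrix (Fin n) (Fin n) S) i j -
      (1 : Matrix (Fin n) (Fin n) S) i j ∈ I := by
  have h1 := DFunLike.congr_fun h k
  have h2 := congrArg (fun g : GL (Fin n) (S ⧸ I) => (g : Matrix (Fin n) (Fin n) (S ⧸ I)) i j) h1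
  rw [← Ideal.Quotient.eq]
  have h3 : (Ideal.Quotient.mk I) (((φ k : GL (Fin n) S) : Matrix (Fin n) (Fin n) S) i j) =
      (1 : Matrix (Fin n) (Fin n) (S ⧸ I)) i j := h2
  rw [h3, Matrix.one_apply, Matrix.one_apply]
  split_ifs <;> simp

theorem noeth_of {S : Type*} [CommRing S] [IsNoetherianRing S] {n : ℕ} (φ : K →* GL (Fin n) S)
    (h : ∀ I : Ideal S, I.IsMaximal →
      (GeneralLinearGroup.map (n := Fin n) (Ideal.Quotient.mk I)).comp φ = 1) : φ = 1 := by
  have all : ∀ I : Ideal S, I.IsMaximal → ∀ (r : ℕ) (k : K) (i j : Fin n),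
      ((φ k : GL (Fin n) S) : Matrix (Fin n) (Fin n) S) i j -
        (1 : Matrix (Fin n) (Fin n) S) i j ∈ I ^ (r + 1) := by
    intro I hI r
    induction r with
    | zero => intro k i j; rw [zero_add, pow_one]; exact base_of I φ (h I hI) k i j
    | succ r ih => exact step I φ (r + 1) (by omega) ih
  refine MonoidHom.ext fun k => Units.ext ?_
  ext i j
  rw [MonoidHom.one_apply, Units.val_one, ← sub_eq_zero]
  set x : S := ((φ k : GL (Fin n) S) : Matrix (Fin n) (Fin n) S) i j -
      (1 : Matrix (Fin n) (Fin n) S) i j with hx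
  by_contra hne
  have hA : Ideal.torsionOf S S x ≠ ⊤ := by
    intro h
    have h1 : (1 : S) ∈ Ideal.torsionOf S S x := by rw [h]; trivial
    rw [Ideal.mem_torsionOf_iff, one_smul] at h1
    exact hne h1
  obtain ⟨I, hI, hle⟩ := Ideal.exists_le_maximal _ hA
  have hmem : x ∈ (⨅ i : ℕ, I ^ i • (⊤ : Submodule S S)) := by
    rw [Submodule.mem_iInf]
    intro r
    have h1 := all I hI r k i j
    have h2 : x ∈ I ^ r := Ideal.pow_le_pow_right (Nat.le_succ r) h1
    have h3 : x = x • (1 : S) := by rw [smul_eq_mul, mul_one]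
    rw [h3]
    exact Submodule.smul_mem_smul h2 trivial
  obtain ⟨r, hr⟩ := (Ideal.mem_iInf_smul_pow_eq_bot_iff I x).1 hmem
  have h1 : (1 - (r : S)) ∈ Ideal.torsionOf S S x := by
    rw [Ideal.mem_torsionOf_iff, sub_smul, one_smul, hr, sub_self]
  have h2 : (1 : S) ∈ I := by
    have := I.add_mem (hle h1) r.2
    rwa [sub_add_cancel] at this
  exact hI.ne_top ((Ideal.eq_top_iff_one I).2 h2)

/-- Reduction of a representation over a commutative ring to finite fields; `T0` is a finite set
of further elements that are kept. -/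
theorem reduce {R : Type*} [CommRing R] {n : ℕ} (φ : K →* GL (Fin n) R) (T0 : Set R)
    (hT0 : T0.Finite)
    (hred : ∀ S : Subalgebra ℤ R, T0 ⊆ S → ∀ ψ : K →* GL (Fin n) S,
      (GeneralLinearGroup.map (n := Fin n) (S.val : S →+* R)).comp ψ = φ →
      ∀ I : Ideal S, I.IsMaximal → Finite (S ⧸ I) →
        (GeneralLinearGroup.map (n := Fin n) (Ideal.Quotient.mk I)).comp ψ = 1) : φ = 1 := by
  set T : Set R := T0 ∪ (Set.range (fun t : Fin 6 × Fin n × Fin n =>
      ((φ (gen t.1) : GL (Fin n) R) : Matrix (Fin n) (Fin n) R) t.2.1 t.2.2) ∪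
    Set.range (fun t : Fin 6 × Fin n × Fin n =>
      (((φ (gen t.1))⁻¹ : GL (Fin n) R) : Matrix (Fin n) (Fin n) R) t.2.1 t.2.2)) with hT
  have hfin : T.Finite := hT0.union ((Set.finite_range _).union (Set.finite_range _))
  set S : Subalgebra ℤ R := Algebra.adjoin ℤ T with hS
  have hft : Algebra.FiniteType ℤ S := by
    rw [← Subalgebra.fg_iff_finiteType]
    exact ⟨hfin.toFinset, by rw [Set.Finite.coe_toFinset]⟩
  have hno : IsNoetherianRing S := Algebra.FiniteType.isNoetherianRing ℤ S
  have hinj := map_injective (n := n) (S.val : S →+* R) Subtype.val_injective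
  have hle : φ.range ≤ (GeneralLinearGroup.map (n := Fin n) (S.val : S →+* R)).range := by
    apply range_le
    intro i
    apply mem_range
    · intro a b
      exact Algebra.subset_adjoin (Or.inr (Or.inl ⟨(i, a, b), rfl⟩))
    · intro a b
      exact Algebra.subset_adjoin (Or.inr (Or.inr ⟨(i, a, b), rfl⟩))
  let e := MonoidHom.ofInjective hinj
  let ψ : K →* GL (Fin n) S := e.symm.toMonoidHom.comp (φ.codRestrict _ fun k => hle ⟨k, rfl⟩)
  have hcomp : (GeneralLinearGroup.map (n := Fin n) (S.val : S →+* R)).comp ψ = φ := by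
    refine MonoidHom.ext fun k => ?_
    have h1 : e (e.symm (φ.codRestrict _ (fun k => hle ⟨k, rfl⟩) k)) =
        φ.codRestrict _ (fun k => hle ⟨k, rfl⟩) k := e.apply_symm_apply _
    exact congrArg Subtype.val h1
  have hψ : ψ = 1 := by
    apply noeth_of
    intro I hI
    have hfi : Finite (S ⧸ I) := by
      let _ := Ideal.Quotient.field I
      have h1 : Algebra.FiniteType ℤ (S ⧸ I) := Algebra.FiniteType.of_surjective
        (Ideal.Quotient.mkₐ ℤ I) (Ideal.Quotient.mkₐ_surjective ℤ I)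
      have hJ := jacobson_int
      have h2 : Module.Finite ℤ (S ⧸ I) := finite_of_finite_type_of_isJacobsonRing ℤ (S ⧸ I)
      exact finite_field_of_int
    exact hred S (fun x hx => Algebra.subset_adjoin (Or.inl hx)) ψ hcomp I hI hfi
  rw [← hcomp, hψ, MonoidHom.comp_one]

theorem two_ne_of {R : Type*} [CommRing R] {S : Subalgebra ℤ R} {y : R} (hy : 2 * y = 1)
    (hyS : y ∈ S) {I : Ideal S} (hI : I.IsMaximal) : (2 : S ⧸ I) ≠ 0 := by
  intro h0
  have h1 : (2 : S) * ⟨y, hyS⟩ = 1 := Subtype.ext hy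
  have h2 := congrArg (Ideal.Quotient.mk I) h1
  rw [map_mul, map_ofNat, h0, zero_mul, map_one] at h2
  exact hI.ne_top ((Ideal.eq_top_iff_one I).2 (Ideal.Quotient.eq_zero_iff_mem.1
    (by rw [map_one]; exact h2.symm)))

/-- degree at most five, `2` invertible -/
theorem trivial_five {R : Type*} [CommRing R] (h2 : IsUnit (2 : R)) {n : ℕ} (hn : n ≤ 5)
    (φ : K →* GL (Fin n) R) : φ = 1 := by
  obtain ⟨y, hy⟩ := h2.exists_right_inv
  refine reduce φ {y} (Set.finite_singleton y) ?_
  intro S hS ψ _ I hI hfin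
  have hy2 := two_ne_of hy (hS rfl) hI
  let _ := Ideal.Quotient.field I
  exact main_five hy2 (by rw [Fintype.card_fin]; exact hn) _

/-- `C - 1` and `D - 1` factor through `R²` -/
theorem trivial_bi {R : Type*} [CommRing R] (h2 : IsUnit (2 : R)) {n : ℕ}
    (φ : K →* GL (Fin n) R) {U V : Matrix (Fin n) (Fin 2) R} {U' V' : Matrix (Fin 2) (Fin n) R}
    (hC : (φ (gen 2) : Matrix (Fin n) (Fin n) R) - 1 = U * U')
    (hD : (φ (gen 3) : Matrix (Fin n) (Fin n) R) - 1 = V * V') : φ = 1 := by
  obtain ⟨y, hy⟩ := h2.exists_right_inv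
  set T0 : Set R := {y} ∪ ((Set.range (fun t : Fin n × Fin 2 => U t.1 t.2) ∪
    Set.range (fun t : Fin n × Fin 2 => V t.1 t.2)) ∪
    (Set.range (fun t : Fin 2 × Fin n => U' t.1 t.2) ∪
    Set.range (fun t : Fin 2 × Fin n => V' t.1 t.2))) with hT0
  have hfin : T0.Finite := (Set.finite_singleton y).union
    (((Set.finite_range _).union (Set.finite_range _)).union
      ((Set.finite_range _).union (Set.finite_range _)))
  refine reduce φ T0 hfin ?_
  intro S hS ψ hψ I hI hfi
  have hy2 := two_ne_of hy (hS (Or.inl rfl)) hI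
  let _ := Ideal.Quotient.field I
  -- factorisation over `S`
  have key : ∀ (g : K) (W : Matrix (Fin n) (Fin 2) R) (W' : Matrix (Fin 2) (Fin n) R),
      (∀ i j, W i j ∈ S) → (∀ i j, W' i j ∈ S) →
      (φ g : Matrix (Fin n) (Fin n) R) - 1 = W * W' →
      ((((GeneralLinearGroup.map (n := Fin n) (Ideal.Quotient.mk I)).comp ψ) g :
        GL (Fin n) (S ⧸ I)) - 1 : Matrix (Fin n) (Fin n) (S ⧸ I)).rank ≤ 2 := by
    intro g W W' hW hW' hg
    let w : Matrix (Fin n) (Fin 2) S := fun i j => ⟨W i j, hW i j⟩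
    let w' : Matrix (Fin 2) (Fin n) S := fun i j => ⟨W' i j, hW' i j⟩
    have e1 : (ψ g : Matrix (Fin n) (Fin n) S) - 1 = w * w' := by
      ext i j
      have h1 := congrArg (fun X : Matrix (Fin n) (Fin n) R => X i j) hg
      have h2 : ((φ g : GL (Fin n) R) : Matrix (Fin n) (Fin n) R) i j =
          (((ψ g : Matrix (Fin n) (Fin n) S) i j : S) : R) := by
        rw [← hψ]; rfl
      simp only [Matrix.sub_apply, h2, Matrix.mul_apply] at h1
      rw [Matrix.sub_apply, Matrix.mul_apply, AddSubgroupClass.coe_sub,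
        AddSubmonoidClass.coe_finsetSum]
      have h3 : (((1 : Matrix (Fin n) (Fin n) S) i j : S) : R) =
          (1 : Matrix (Fin n) (Fin n) R) i j := by
        rw [Matrix.one_apply, Matrix.one_apply]
        split_ifs <;> simp
      rw [h3, h1]
      rfl
    have e2 : ((((GeneralLinearGroup.map (n := Fin n) (Ideal.Quotient.mk I)).comp ψ) g :
        GL (Fin n) (S ⧸ I)) - 1 : Matrix (Fin n) (Fin n) (S ⧸ I)) =
        w.map (Ideal.Quotient.mk I) * w'.map (Ideal.Quotient.mk I) := by
      rw [← Matrix.map_mul, ← e1]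
      ext i j
      rw [Matrix.map_apply, Matrix.sub_apply, Matrix.sub_apply, map_sub]
      have h3 : Ideal.Quotient.mk I ((1 : Matrix (Fin n) (Fin n) S) i j) =
          (1 : Matrix (Fin n) (Fin n) (S ⧸ I)) i j := by
        rw [Matrix.one_apply, Matrix.one_apply]
        split_ifs <;> simp
      rw [h3]
      rfl
    rw [e2]
    exact le_trans (rank_mul_le_left _ _) (le_trans (rank_le_card_width _) (by simp))
  refine main_finite hy2 _ ?_ ?_
  · exact key _ U U' (fun i j => hS (Or.inr (Or.inl (Or.inl ⟨(i, j), rfl⟩))))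
      (fun i j => hS (Or.inr (Or.inr (Or.inl ⟨(i, j), rfl⟩)))) hC
  · exact key _ V V' (fun i j => hS (Or.inr (Or.inl (Or.inr ⟨(i, j), rfl⟩))))
      (fun i j => hS (Or.inr (Or.inr (Or.inr ⟨(i, j), rfl⟩)))) hD

end Pool.Agent.Helper61.KT
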