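import Pool.Agent.Helper61.KT.Eig

/-!
# Involutions with small eigenspaces: the two types
-/

set_option autoImplicit false
set_option linter.unusedSimpArgs false

open Matrix

namespace Pool.Agent.Helper61.KT

section comm

variable {M : Type*} [Ring M] {A A' B B' C P Q : M} (h : RR A A' B B' C P Q)

include h

theorem x0_comm : X0 C Q * X0 C P = X0 C P * X0 C Q := by
  unfold X0
  simp only [mul_add, add_mul, mul_sub, sub_mul, mul_one, one_mul, mul_assoc, h.cc, h.cc_, h.pp,
    h.pp_, h.pc, h.pc_, h.qc, h.qc_, h.qp, h.qp_, h.qq, h.qq_]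
  abel

theorem x1_x0 : X1 C P * X0 C Q = 0 := by
  unfold X1 X0
  simp only [mul_add, add_mul, mul_sub, sub_mul, mul_one, one_mul, mul_assoc, h.cc, h.cc_, h.pp,
    h.pp_, h.pc, h.pc_, h.qc, h.qc_, h.qp, h.qp_, h.qq, h.qq_]
  abel

end comm

variable {F : Type*} [Field F] {ι : Type*} [Fintype ι] [DecidableEq ι]

omit [Fintype ι] [DecidableEq ι] in
theorem four (X : Matrix ι ι F) : 4 • X = (4 : F) • X := by module

theorem four_ne (h2 : (2 : F) ≠ 0) : (4 : F) ≠ 0 := by
  have : (4 : F) = 2 * 2 := by norm_num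
  rw [this]; exact mul_ne_zero h2 h2

variable {A A' B B' C P Q : Matrix ι ι F}

theorem rank_x1 (h : RR A A' B B' C P Q) (h2 : (2 : F) ≠ 0) (hr : (C - 1).rank ≤ 2) :
    (X1 C P).rank ≤ 1 := by
  have e1 : X1 C P * X1 C P = (4 : F) • X1 C P := by rw [x1_sq h, four]
  have h1 := rank_two (four_ne h2) e1 (x12 h) ⟨_, x1_eq⟩ ⟨_, x2_eq⟩
  have h3 : (X1 C P).rank ≤ (X2 C P).rank :=
    rank_conj_le (S := Q) (T := Q) (by rw [q_x2 h, mul_assoc, h.qq, mul_one])
  omega

theorem rank_x3 (h : RR A A' B B' C P Q) (h2 : (2 : F) ≠ 0) (hr : (C - 1).rank ≤ 2) :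
    (X3 C P).rank ≤ 1 :=
  le_trans (rank_conj_le (S := A) (T := A') (by rw [a_x1 h, mul_assoc, h.aai, mul_one]))
    (rank_x1 h h2 hr)

theorem rank_x2 (h : RR A A' B B' C P Q) (h2 : (2 : F) ≠ 0) (hr : (C - 1).rank ≤ 2) :
    (X2 C P).rank ≤ 1 :=
  le_trans (rank_conj_le (S := A) (T := A') (by rw [a_x3 h, mul_assoc, h.aai, mul_one]))
    (rank_x3 h h2 hr)

theorem x3_ne (h : RR A A' B B' C P Q) (h2 : (2 : F) ≠ 0) (hc : C ≠ 1) : X3 C P ≠ 0 := by
  intro h0
  have h1 : X2 C P = 0 := by
    calc X2 C P = X2 C P * A * A' := by rw [mul_assoc, h.aai, mul_one]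
      _ = 0 := by rw [← a_x3 h, h0, mul_zero, zero_mul]
  have h3 : X1 C P = 0 := by
    calc X1 C P = X1 C P * A * A' := by rw [mul_assoc, h.aai, mul_one]
      _ = 0 := by rw [← a_x2 h, h1, mul_zero, zero_mul]
  have h4 := x_sum (C := C) (P := P)
  rw [h1, h3, add_zero] at h4
  have h5 : (2 : F) • (1 - C) = 0 := by
    rw [h4]; module
  have h6 := (smul_eq_zero.1 h5).resolve_left h2
  exact hc (sub_eq_zero.1 h6).symm

theorem tr_x3 (h : RR A A' B B' C P Q) (h2 : (2 : F) ≠ 0) (hr : (C - 1).rank ≤ 2) (hc : C ≠ 1) :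
    (X3 C P).trace = 4 := by
  have h1 := sandwich1 (rank_x3 h h2 hr) 1
  rw [mul_one, one_mul, x3_sq h, four] at h1
  have h3 : ((4 : F) - (X3 C P).trace) • X3 C P = 0 := by rw [sub_smul, h1, sub_self]
  have h4 := (smul_eq_zero.1 h3).resolve_right (x3_ne h h2 hc)
  linear_combination -h4

theorem dich (h : RR A A' B B' C P Q) (h2 : (2 : F) ≠ 0) (hr : (C - 1).rank ≤ 2) (hc : C ≠ 1) :
    Q * X3 C P = X3 C P ∨ Q * X3 C P = -X3 C P := by
  have h4 := four_ne h2
  have h1 := sandwich1 (rank_x3 h h2 hr) Q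
  have e1 : X3 C P * Q * X3 C P = (4 : F) • (Q * X3 C P) := by
    rw [← q_x3 h, mul_assoc, x3_sq h, four, mul_smul_comm]
  rw [e1] at h1
  set t := (Q * X3 C P).trace with ht
  have h3 : (4 : F) • X3 C P = t • (Q * X3 C P) := by
    have h5 := congrArg (fun Y => Q * Y) h1
    simp only [mul_smul_comm, ← mul_assoc, h.qq, one_mul] at h5
    exact h5
  have h5 : ((t - 4) * (t + 4)) • X3 C P = 0 := by
    have h6 : (4 : F) • ((4 : F) • X3 C P) = t • (t • X3 C P) := by
      rw [h3, smul_comm, h1]
    have h7 : ((t - 4) * (t + 4)) • X3 C P = t • (t • X3 C P) - (4 : F) • ((4 : F) • X3 C P) := by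
      module
    rw [h7, h6, sub_self]
  have h6 := (smul_eq_zero.1 h5).resolve_right (x3_ne h h2 hc)
  rcases mul_eq_zero.1 h6 with h7 | h7
  · left
    have h8 : t = 4 := by linear_combination h7
    rw [h8] at h1
    have h9 : (4 : F) • (Q * X3 C P - X3 C P) = 0 := by rw [smul_sub, h1, sub_self]
    exact sub_eq_zero.1 ((smul_eq_zero.1 h9).resolve_left h4)
  · right
    have h8 : t = -4 := by linear_combination h7
    rw [h8] at h1
    have h9 : (4 : F) • (Q * X3 C P + X3 C P) = 0 := by rw [smul_add, h1]; module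
    exact eq_neg_of_add_eq_zero_left ((smul_eq_zero.1 h9).resolve_left h4)

/-- the first type: `A` and `B` fix `X0` -/
theorem minus (h : RR A A' B B' C P Q) (h2 : (2 : F) ≠ 0) (hr : (C - 1).rank ≤ 2) (hc : C ≠ 1)
    (hm : Q * X3 C P = -X3 C P) :
    A * X0 C P = X0 C P ∧ B * X0 C P = X0 C P ∧ X0 C P * A = X0 C P ∧ X0 C P * B = X0 C P := by
  have h4 := four_ne h2
  have hs := h.symm
  have hrW := rank_x3 hs h2 hr
  have e1 : X3 C Q * X3 C P = (4 : F) • X3 C P := by
    have : X3 C Q = (1 + C) * (1 - Q) := rfl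
    rw [this, mul_assoc, sub_mul, one_mul, hm, sub_neg_eq_add, add_mul, mul_add, mul_add, one_mul,
      c_x3 h]
    module
  have e2 := sandwich1 hrW (X3 C P)
  rw [e1, smul_mul_assoc, trace_mul_comm, e1, trace_smul, tr_x3 h h2 hr hc, smul_eq_mul,
    mul_smul] at e2
  have e3 : X3 C P * X3 C Q = (4 : F) • X3 C Q := smul_right_injective _ h4 e2
  have e4 : P * X3 C Q = -X3 C Q := by
    have h5 : (4 : F) • (P * X3 C Q) = (4 : F) • (-X3 C Q) := by
      rw [← mul_smul_comm, ← e3, ← mul_assoc, p_x3 h, neg_mul, e3, smul_neg]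
    exact smul_right_injective _ h4 h5
  have e5 : X0 C P * Q = X0 C P := by
    have h5 := x0_one_sub h
    rw [add_mul, one_mul, e4, add_neg_cancel] at h5
    exact (sub_eq_zero.1 h5).symm
  have e6 : X0 C Q * P = X0 C Q := by
    have h5 := x0_one_sub hs
    rw [add_mul, one_mul, hm, add_neg_cancel] at h5
    exact (sub_eq_zero.1 h5).symm
  have a1 := a_fix h e5
  have b1 := a_fix hs e6
  have eq0 : X0 C P = X0 C Q := by
    have k1 : X0 C Q * X0 C P = (4 : F) • X0 C P := by
      have e : (1 + Q) * X0 C P = (2 : F) • X0 C P := by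
        rw [add_mul, one_mul, q_x0 h, e5]; module
      have : X0 C Q = (1 + C) * (1 + Q) := rfl
      rw [this, mul_assoc, e, mul_smul_comm, add_mul, one_mul, c_x0 h]
      module
    have k2 : X0 C P * X0 C Q = (4 : F) • X0 C Q := by
      have e : (1 + P) * X0 C Q = (2 : F) • X0 C Q := by
        rw [add_mul, one_mul, q_x0 hs, e6]; module
      have : X0 C P = (1 + C) * (1 + P) := rfl
      rw [this, mul_assoc, e, mul_smul_comm, add_mul, one_mul, c_x0 hs]
      module
    rw [x0_comm h, k2] at k1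
    exact (smul_right_injective _ h4 k1).symm
  refine ⟨a1, ?_, ?_, ?_⟩
  · rw [eq0]; exact b1
  · rw [← a_x0 h]; exact a1
  · rw [eq0, ← a_x0 hs]; exact b1

/-- the second type: a trace identity -/
theorem plus (h : RR A A' B B' C P Q) (h2 : (2 : F) ≠ 0) (hr : (C - 1).rank ≤ 2) (hc : C ≠ 1)
    (hp : Q * X3 C P = X3 C P) : (A * B).trace - (A * B').trace = 1 := by
  have h4 := four_ne h2
  have hs := h.symm
  -- `P` fixes the image of `X3 C Q`
  have ePW : P * X3 C Q = X3 C Q := by
    rcases dich hs h2 hr hc with e | e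
    · exact e
    · exfalso
      have k1 : X3 C P * X3 C Q = (4 : F) • X3 C Q := by
        have : X3 C P = (1 + C) * (1 - P) := rfl
        rw [this, mul_assoc, sub_mul, one_mul, e, sub_neg_eq_add, add_mul, mul_add, mul_add,
          one_mul, c_x3 hs]
        module
      have k2 : (4 : F) • (Q * X3 C Q) = (4 : F) • X3 C Q := by
        rw [← mul_smul_comm, ← k1, ← mul_assoc, hp]
      have k3 := smul_right_injective _ h4 k2
      rw [p_x3 hs] at k3
      have k4 : (2 : F) • X3 C Q = 0 := by
        have : (2 : F) • X3 C Q = X3 C Q - -X3 C Q := by module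
        rw [this, k3, sub_self]
      exact x3_ne hs h2 hc ((smul_eq_zero.1 k4).resolve_left h2)
  -- first part
  have t1 : (X1 C P * B' * A).trace = 0 := by
    have k1 : X0 C Q * X3 C P = (4 : F) • X3 C P := by
      have e : (1 + Q) * X3 C P = (2 : F) • X3 C P := by
        rw [add_mul, one_mul, hp]; module
      have : X0 C Q = (1 + C) * (1 + Q) := rfl
      rw [this, mul_assoc, e, mul_smul_comm, add_mul, one_mul, c_x3 h]
      module
    have k2 : X1 C P * B' * X3 C P = 0 := by
      have k3 : (4 : F) • (X1 C P * B' * X3 C P) = 0 := by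
        rw [← mul_smul_comm, ← k1]
        calc X1 C P * B' * (X0 C Q * X3 C P) = X1 C P * (B' * X0 C Q) * X3 C P := by
              simp only [mul_assoc]
          _ = X1 C P * X0 C Q * B' * X3 C P := by rw [ai_x0 hs]; simp only [mul_assoc]
          _ = 0 := by rw [x1_x0 h, zero_mul, zero_mul]
      exact (smul_eq_zero.1 k3).resolve_left h4
    have k3 : (4 : F) * (X1 C P * B' * A).trace = 0 := by
      have k4 : (4 : F) • (X1 C P * B' * A) = X1 C P * (X1 C P * B' * A) := by
        rw [← mul_assoc, ← mul_assoc, x1_sq h, four]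
        simp only [smul_mul_assoc]
      have k5 : X1 C P * B' * A * X1 C P = 0 := by
        rw [mul_assoc, a_x1 h, ← mul_assoc, k2, zero_mul]
      rw [← smul_eq_mul, ← trace_smul, k4, trace_mul_comm, k5, trace_zero]
    exact (mul_eq_zero.1 k3).resolve_left h4
  -- second part
  have aq : A * X2 C P = Q * X2 C P := by
    have k1 : X2 C P = A * X3 C P * A' := by rw [a_x3 h, mul_assoc, h.aai, mul_one]
    have k2 : Q * (A * X2 C P) = X2 C P := by
      calc Q * (A * X2 C P) = Q * (A * (A * X3 C P * A')) := by rw [← k1]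
        _ = Q * (A * A) * X3 C P * A' := by simp only [mul_assoc]
        _ = A * (Q * X3 C P) * A' := by rw [h.aa, h.qai]; simp only [mul_assoc]
        _ = X2 C P := by rw [hp, ← k1]
    calc A * X2 C P = Q * (Q * (A * X2 C P)) := by rw [h.qq_]
      _ = Q * X2 C P := by rw [k2]
  have u1 : B'.trace = (B' * C).trace := by
    have k1 : Q * B' * Q = C * B' := by
      calc Q * B' * Q = B' * C * Q := by rw [h.bic]
        _ = B' * (Q * C) := by rw [mul_assoc, h.qc]
        _ = B' * Q * C := by rw [mul_assoc]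
        _ = C * (Q * (B' * C)) := by rw [h.biq]; simp only [mul_assoc]
        _ = C * B' := by rw [h.bic, h.qq_]
    rw [trace_mul_comm B' C, ← k1, trace_mul_comm, ← mul_assoc, h.qq, one_mul]
  have u2 : (B' * P).trace = P.trace := by
    have k1 : B * P * B' = B' * P := by
      have : B' * B' = B := by
        calc B' * B' = B' * (B * B) := by rw [h.bb]
          _ = B := by rw [← mul_assoc, h.bib, one_mul]
      rw [← h.pbi, mul_assoc, this, h.pb]
    rw [← k1, trace_mul_comm, ← mul_assoc, h.bib, one_mul]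
  have u3 : (B' * (C * P)).trace = (P * Q).trace := by
    have k1 : B * P * B' = B' * P := by
      have : B' * B' = B := by
        calc B' * B' = B' * (B * B) := by rw [h.bb]
          _ = B := by rw [← mul_assoc, h.bib, one_mul]
      rw [← h.pbi, mul_assoc, this, h.pb]
    have k2 : B' * (C * P) = Q * (B * P * B') := by
      rw [h.bic_, k1]
    have k3 : B' * (Q * (B * P)) = P * Q := by
      rw [h.biq_, h.bib_, h.qp, h.cc_]
    have k4 : Q * (B * P * B') = Q * (B * P) * B' := by simp only [mul_assoc]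
    rw [k2, k4, trace_mul_comm, k3]
  have u4 : (B' * X1 C P).trace = P.trace - (P * Q).trace := by
    have : B' * X1 C P = B' - B' * C + B' * P - B' * (C * P) := by
      unfold X1; noncomm_ring
    rw [this, trace_sub, trace_add, trace_sub, ← u1, u2, u3]
    ring
  have v1 : (P * C).trace = P.trace := by
    have k1 : C * P = A * C * A' := by rw [h.ac, mul_assoc, mul_assoc, h.aai, mul_one]
    have k2 : P = A' * (C * A) := by rw [← h.ap, h.aia_]
    have k3 : P.trace = C.trace := by
      have : (A' * (C * A)).trace = C.trace := by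
        rw [trace_mul_comm, mul_assoc, h.aai, mul_one]
      rw [← k2] at this
      exact this
    rw [trace_mul_comm, k1, trace_mul_comm, ← mul_assoc, h.aia, one_mul, k3]
  have v2 : (P * (C * Q)).trace = (P * Q).trace := by
    rw [h.pc_, ← h.qp, trace_mul_comm]
  have v3 : P.trace - (P * Q).trace = 2 := by
    have k1 : P * X3 C Q = P + P * C - P * Q - P * (C * Q) := by
      unfold X3; noncomm_ring
    have k2 : (P * X3 C Q).trace = 4 := by rw [ePW, tr_x3 hs h2 hr hc]
    rw [k1, trace_sub, trace_sub, trace_add, v1, v2] at k2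
    apply mul_left_cancel₀ h2
    linear_combination k2
  have t2 : (X2 C P * B' * A).trace = -2 := by
    rw [mul_assoc, trace_mul_comm, mul_assoc, aq, q_x2 h, ← mul_assoc, trace_mul_comm,
      ← mul_assoc, ← h.bic, mul_assoc, c_x1 h, mul_neg, trace_neg, u4, v3]
  -- conclusion
  have w1 : ((1 - C) * B' * A).trace = -1 := by
    have k1 : (X1 C P + X2 C P) * B' * A = (2 : F) • ((1 - C) * B' * A) := by
      rw [x_sum]
      have : (2 : ℕ) • (1 - C) = (2 : F) • (1 - C) := by module
      rw [this]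
      simp only [smul_mul_assoc]
    have k2 : ((X1 C P + X2 C P) * B' * A).trace = -2 := by
      rw [add_mul, add_mul, trace_add, t1, t2, zero_add]
    rw [k1, trace_smul, smul_eq_mul] at k2
    apply mul_left_cancel₀ h2
    linear_combination k2
  have w2 : (A * B).trace = (A * C * B').trace := by
    have k1 : P * (A * B) * P = A * C * B' := by
      rw [mul_assoc, mul_assoc, ← h.pbi, ← mul_assoc A, h.ap, mul_assoc C, ← mul_assoc,
        h.pc, h.ac]
      simp only [mul_assoc]
    rw [← k1, trace_mul_comm (P * (A * B)) P, ← mul_assoc, h.pp, one_mul]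
  have w3 : (A * B').trace - (A * C * B').trace = -1 := by
    rw [← w1, ← trace_sub, mul_assoc (1 - C), trace_mul_comm (1 - C), mul_assoc B',
      trace_mul_comm B']
    congr 1
    noncomm_ring
  rw [w2]
  linear_combination -w3

end Pool.Agent.Helper61.KT
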