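import Pool.Agent.Helper61.KT.Words

/-!
# The eigenprojections of the four-groups
-/

set_option autoImplicit false
set_option linter.unusedSimpArgs false

open Matrix

namespace Pool.Agent.Helper61.KT

section ring

variable {M : Type*} [Ring M]

/-- `4` times the projection on `C = -1, P = 1` -/
def X1 (C P : M) : M := (1 - C) * (1 + P)

/-- `4` times the projection on `C = -1, P = -1` -/
def X2 (C P : M) : M := (1 - C) * (1 - P)

/-- `4` times the projection on `C = 1, P = -1` -/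
def X3 (C P : M) : M := (1 + C) * (1 - P)

/-- `4` times the projection on `C = 1, P = 1` -/
def X0 (C P : M) : M := (1 + C) * (1 + P)

variable {A A' B B' C P Q : M} (h : RR A A' B B' C P Q)

include h

theorem x1_sq : X1 C P * X1 C P = 4 • X1 C P := by
  unfold X1
  simp only [mul_add, add_mul, mul_sub, sub_mul, mul_one, one_mul, mul_assoc, h.cc, h.cc_, h.pp,
    h.pp_, h.pc, h.pc_]
  abel

theorem x2_sq : X2 C P * X2 C P = 4 • X2 C P := by
  unfold X2
  simp only [mul_add, add_mul, mul_sub, sub_mul, mul_one, one_mul, mul_assoc, h.cc, h.cc_, h.pp,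
    h.pp_, h.pc, h.pc_]
  abel

theorem x3_sq : X3 C P * X3 C P = 4 • X3 C P := by
  unfold X3
  simp only [mul_add, add_mul, mul_sub, sub_mul, mul_one, one_mul, mul_assoc, h.cc, h.cc_, h.pp,
    h.pp_, h.pc, h.pc_]
  abel

theorem x0_sq : X0 C P * X0 C P = 4 • X0 C P := by
  unfold X0
  simp only [mul_add, add_mul, mul_sub, sub_mul, mul_one, one_mul, mul_assoc, h.cc, h.cc_, h.pp,
    h.pp_, h.pc, h.pc_]
  abel

theorem x12 : X1 C P * X2 C P = 0 := by
  unfold X1 X2
  simp only [mul_add, add_mul, mul_sub, sub_mul, mul_one, one_mul, mul_assoc, h.cc, h.cc_, h.pp,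
    h.pp_, h.pc, h.pc_]
  abel

omit h in
theorem x1_eq : X1 C P = (C - 1) * (-(1 + P)) := by
  unfold X1; noncomm_ring

omit h in
theorem x2_eq : X2 C P = (C - 1) * (-(1 - P)) := by
  unfold X2; noncomm_ring

omit h in
theorem x_sum : X1 C P + X2 C P = 2 • (1 - C) := by
  unfold X1 X2; noncomm_ring

omit h in
theorem x_sum4 : 4 • (1 : M) - X0 C P = X1 C P + X2 C P + X3 C P := by
  unfold X1 X2 X3 X0; noncomm_ring

theorem c_x3 : C * X3 C P = X3 C P := by
  unfold X3
  simp only [mul_add, add_mul, mul_sub, sub_mul, mul_one, one_mul, mul_assoc, h.cc, h.cc_, h.pp,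
    h.pp_, h.pc, h.pc_]
  abel

theorem p_x3 : P * X3 C P = -X3 C P := by
  unfold X3
  simp only [mul_add, add_mul, mul_sub, sub_mul, mul_one, one_mul, mul_assoc, h.cc, h.cc_, h.pp,
    h.pp_, h.pc, h.pc_]
  abel

theorem c_x1 : C * X1 C P = -X1 C P := by
  unfold X1
  simp only [mul_add, add_mul, mul_sub, sub_mul, mul_one, one_mul, mul_assoc, h.cc, h.cc_, h.pp,
    h.pp_, h.pc, h.pc_]
  abel

theorem c_x0 : C * X0 C P = X0 C P := by
  unfold X0
  simp only [mul_add, add_mul, mul_sub, sub_mul, mul_one, one_mul, mul_assoc, h.cc, h.cc_, h.pp,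
    h.pp_, h.pc, h.pc_]
  abel

theorem p_x0 : P * X0 C P = X0 C P := by
  unfold X0
  simp only [mul_add, add_mul, mul_sub, sub_mul, mul_one, one_mul, mul_assoc, h.cc, h.cc_, h.pp,
    h.pp_, h.pc, h.pc_]
  abel

theorem a_x1 : A * X1 C P = X3 C P * A := by
  unfold X1 X3
  simp only [mul_add, add_mul, mul_sub, sub_mul, mul_one, one_mul, mul_assoc, h.cc, h.cc_, h.pp,
    h.pp_, h.pc, h.pc_, h.ac, h.ac_, h.ap, h.ap_]
  abel

theorem a_x3 : A * X3 C P = X2 C P * A := by
  unfold X2 X3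
  simp only [mul_add, add_mul, mul_sub, sub_mul, mul_one, one_mul, mul_assoc, h.cc, h.cc_, h.pp,
    h.pp_, h.pc, h.pc_, h.ac, h.ac_, h.ap, h.ap_]
  abel

theorem a_x2 : A * X2 C P = X1 C P * A := by
  unfold X2 X1
  simp only [mul_add, add_mul, mul_sub, sub_mul, mul_one, one_mul, mul_assoc, h.cc, h.cc_, h.pp,
    h.pp_, h.pc, h.pc_, h.ac, h.ac_, h.ap, h.ap_]
  abel

theorem a_x0 : A * X0 C P = X0 C P * A := by
  unfold X0
  simp only [mul_add, add_mul, mul_sub, sub_mul, mul_one, one_mul, mul_assoc, h.cc, h.cc_, h.pp,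
    h.pp_, h.pc, h.pc_, h.ac, h.ac_, h.ap, h.ap_]
  abel

theorem ai_x0 : A' * X0 C P = X0 C P * A' := by
  unfold X0
  simp only [mul_add, add_mul, mul_sub, sub_mul, mul_one, one_mul, mul_assoc, h.cc, h.cc_, h.pp,
    h.pp_, h.pc, h.pc_, h.aic, h.aic_, h.aip, h.aip_]
  abel

theorem q_x1 : Q * X1 C P = X2 C P * Q := by
  unfold X1 X2
  simp only [mul_add, add_mul, mul_sub, sub_mul, mul_one, one_mul, mul_assoc, h.cc, h.cc_, h.pp,
    h.pp_, h.pc, h.pc_, h.qc, h.qc_, h.qp, h.qp_]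
  abel

theorem q_x2 : Q * X2 C P = X1 C P * Q := by
  unfold X1 X2
  simp only [mul_add, add_mul, mul_sub, sub_mul, mul_one, one_mul, mul_assoc, h.cc, h.cc_, h.pp,
    h.pp_, h.pc, h.pc_, h.qc, h.qc_, h.qp, h.qp_]
  abel

theorem q_x3 : Q * X3 C P = X3 C P * Q := by
  unfold X3
  simp only [mul_add, add_mul, mul_sub, sub_mul, mul_one, one_mul, mul_assoc, h.cc, h.cc_, h.pp,
    h.pp_, h.pc, h.pc_, h.qc, h.qc_, h.qp, h.qp_]
  abel

theorem q_x0 : Q * X0 C P = X0 C P * Q := by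
  unfold X0
  simp only [mul_add, add_mul, mul_sub, sub_mul, mul_one, one_mul, mul_assoc, h.cc, h.cc_, h.pp,
    h.pp_, h.pc, h.pc_, h.qc, h.qc_, h.qp, h.qp_]
  abel

/-- `(1 + P) R_w` is the part of `X0` with `Q = -1` -/
theorem x0_one_sub : X0 C P - X0 C P * Q = (1 + P) * X3 C Q := by
  unfold X0 X3
  simp only [mul_add, add_mul, mul_sub, sub_mul, mul_one, one_mul, mul_assoc, h.cc, h.cc_, h.pp,
    h.pp_, h.pc, h.pc_, h.qc, h.qc_, h.qp, h.qp_]
  abel

/-- if `Q` fixes `X0` then so does `A` -/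
theorem a_fix (hq : X0 C P * Q = X0 C P) : A * X0 C P = X0 C P := by
  have e1 : Q * X0 C P = X0 C P := by rw [q_x0 h, hq]
  have e2 : A' * X0 C P = A * X0 C P := by
    have h1 : A' * X0 C P = A' * (Q * X0 C P) := by rw [e1]
    rw [h1, ← mul_assoc, ← h.qa, mul_assoc, a_x0 h, ← mul_assoc, e1]
  have e3 : X0 C P = A' * X0 C P := by
    calc X0 C P = A * (A' * X0 C P) := by rw [← mul_assoc, h.aai, one_mul]
      _ = A * (A * X0 C P) := by rw [e2]
      _ = A' * X0 C P := by rw [← mul_assoc, h.aa]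
  rw [← e2]; exact e3.symm

end ring

end Pool.Agent.Helper61.KT
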