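import Pool.Agent.Helper61.KT.Mat
import Pool.Agent.Helper79.KF.Fact

/-!
# Trace identities for the relations of `A, B, C` in `SL₃`
-/

set_option autoImplicit false

open Matrix
open scoped MatrixGroups

namespace Pool.Agent.Helper61.KT

open Pool.Agent.Helper79.KF

section group

variable {G : Type*} [Group G] {a b c : G}

theorem inv_three {x : G} (h : x ^ 3 = 1) : x * x = x⁻¹ := by
  rw [eq_inv_iff_mul_eq_one, ← h, pow_three, mul_assoc]

theorem cac (h : Rel a b c) : c * a * c = a⁻¹ * c * a⁻¹ := by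
  have e : c * a * c = a⁻¹ * (a * c) ^ 3 * c⁻¹ * a⁻¹ := by rw [pow_three]; group
  rw [e, h.ax, inv_of_sq h.x2, mul_one]

theorem cbc (h : Rel a b c) : c * b * c = b⁻¹ * c * b⁻¹ := by
  have e : c * b * c = b⁻¹ * (b * c) ^ 3 * c⁻¹ * b⁻¹ := by rw [pow_three]; group
  rw [e, h.bx, inv_of_sq h.x2, mul_one]

theorem cc (h : Rel a b c) : c * c = 1 := by rw [← pow_two, h.x2]

/-- `p a p = a c` -/
theorem pap (h : Rel a b c) : a⁻¹ * c * a * a * (a⁻¹ * c * a) = a * c := by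
  have e : a⁻¹ * c * a * a * (a⁻¹ * c * a) = a⁻¹ * (c * a * c) * a := by group
  rw [e, cac h]
  have e2 : a⁻¹ * (a⁻¹ * c * a⁻¹) * a = (a * a)⁻¹ * c := by group
  rw [e2, inv_three h.a3, inv_inv]

/-- `q b q = b c` -/
theorem qbq (h : Rel a b c) : b⁻¹ * c * b * b * (b⁻¹ * c * b) = b * c := by
  have e : b⁻¹ * c * b * b * (b⁻¹ * c * b) = b⁻¹ * (c * b * c) * b := by group
  rw [e, cbc h]
  have e2 : b⁻¹ * (b⁻¹ * c * b⁻¹) * b = (b * b)⁻¹ * c := by group
  rw [e2, inv_three h.b3, inv_inv]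

/-- `p b p = b⁻¹` -/
theorem pbp (h : Rel a b c) : a⁻¹ * c * a * b * (a⁻¹ * c * a) = b⁻¹ := by
  have e : a⁻¹ * c * a * b * (a⁻¹ * c * a) =
      b⁻¹ * (a⁻¹ * (a * b * a⁻¹ * c) ^ 2 * a) := by rw [pow_two]; group
  rw [e, h.h1]; group

/-- `q a q = a⁻¹` -/
theorem qaq (h : Rel a b c) : b⁻¹ * c * b * a * (b⁻¹ * c * b) = a⁻¹ := by
  have e : b⁻¹ * c * b * a * (b⁻¹ * c * b) =
      a⁻¹ * (b⁻¹ * (b * a * b⁻¹ * c) ^ 2 * b) := by rw [pow_two]; group
  rw [e, h.h2]; group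

/-- `p c p = c` -/
theorem pcp (h : Rel a b c) : a⁻¹ * c * a * c * (a⁻¹ * c * a) = c := by
  have e : a⁻¹ * c * a * c * (a⁻¹ * c * a) = a⁻¹ * (c * a * c) * a⁻¹ * (c * a) := by group
  have e2 : a⁻¹ * (a⁻¹ * c * a⁻¹) * a⁻¹ * (c * a) = (a * a)⁻¹ * c * (a * a)⁻¹ * (c * a) := by group
  rw [e, cac h, e2, inv_three h.a3, inv_inv]
  have e3 : a * c * a * (c * a) = a * (c * a * c) * a := by group
  rw [e3, cac h]; group

/-- `q c q = c` -/
theorem qcq (h : Rel a b c) : b⁻¹ * c * b * c * (b⁻¹ * c * b) = c := by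
  have e : b⁻¹ * c * b * c * (b⁻¹ * c * b) = b⁻¹ * (c * b * c) * b⁻¹ * (c * b) := by group
  have e2 : b⁻¹ * (b⁻¹ * c * b⁻¹) * b⁻¹ * (c * b) = (b * b)⁻¹ * c * (b * b)⁻¹ * (c * b) := by group
  rw [e, cbc h, e2, inv_three h.b3, inv_inv]
  have e3 : b * c * b * (c * b) = b * (c * b * c) * b := by group
  rw [e3, cbc h]; group

theorem conj_sq {y z : G} (hc : y * y = 1) : (z⁻¹ * y * z) * (z⁻¹ * y * z) = 1 := by
  have e : (z⁻¹ * y * z) * (z⁻¹ * y * z) = z⁻¹ * (y * y) * z := by group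
  rw [e, hc]; group

/-- conjugation by an involution is multiplicative -/
theorem conj_mul {p x y : G} (hp : p * p = 1) : p * (x * y) * p = (p * x * p) * (p * y * p) := by
  have e : (p * x * p) * (p * y * p) = p * x * (p * p) * (y * p) := by group
  rw [e, hp]; group

theorem conj_inv {p x y : G} (hp : p * p = 1) (h : p * x * p = y) : p * x⁻¹ * p = y⁻¹ := by
  have hp' : p⁻¹ = p := inv_eq_of_mul_eq_one_left hp
  have e : (p * x * p)⁻¹ = p⁻¹ * x⁻¹ * p⁻¹ := by group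
  rw [← h, e, hp']

end group

section trace

variable {F : Type*} [Field F]

/-- the trace of an element of `GL₃` -/
def t (g : GL (Fin 3) F) : F := (g : Matrix (Fin 3) (Fin 3) F).trace

theorem t_comm (x y : GL (Fin 3) F) : t (x * y) = t (y * x) := by
  rw [t, t, Units.val_mul, Units.val_mul, Matrix.trace_mul_comm]

theorem t_conj {p x y : GL (Fin 3) F} (hp : p * p = 1) (h : p * x * p = y) : t x = t y := by
  rw [← h, t_comm, ← mul_assoc, hp, one_mul]

theorem t_eq {x y : GL (Fin 3) F} (h : x = y) : t x = t y := by rw [h]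

end trace

end Pool.Agent.Helper61.KT
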