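import Pool.Agent.Helper61.KT.Trace

/-!
# Lifting the relations of `A, B, C` from `PGL₃` to `SL₃`
-/

set_option autoImplicit false

open Matrix
open scoped MatrixGroups

namespace Pool.Agent.Helper61.KT

open Pool.Agent.Helper79.KF

variable {F : Type*} [Field F]

theorem val_smul (u : Fˣ) (g : GL (Fin 3) F) : ((u • g : GL (Fin 3) F) : Matrix (Fin 3) (Fin 3) F) =
    (u : F) • (g : Matrix (Fin 3) (Fin 3) F) := rfl

instance towerGL : IsScalarTower Fˣ (GL (Fin 3) F) (GL (Fin 3) F) :=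
  ⟨fun u x y => Units.ext (smul_mul_assoc (u : F) (x : Matrix (Fin 3) (Fin 3) F)
    (y : Matrix (Fin 3) (Fin 3) F))⟩

instance commGL : SMulCommClass Fˣ (GL (Fin 3) F) (GL (Fin 3) F) :=
  ⟨fun u x y => Units.ext (mul_smul_comm (u : F) (x : Matrix (Fin 3) (Fin 3) F)
    (y : Matrix (Fin 3) (Fin 3) F)).symm⟩

theorem smul_eq_mul_scalar (u : Fˣ) (g : GL (Fin 3) F) :
    u • g = g * Matrix.GeneralLinearGroup.scalar (Fin 3) u := by
  apply Units.ext
  rw [val_smul, Units.val_mul, Matrix.GeneralLinearGroup.coe_scalar]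
  ext i j
  simp [mul_comm]

theorem mk_smul (u : Fˣ) (g : GL (Fin 3) F) :
    ProjGenLinGroup.mk (u • g) = ProjGenLinGroup.mk g := by
  rw [smul_eq_mul_scalar, map_mul, ProjGenLinGroup.mk_scalar, mul_one]

theorem mk_eq_iff {g k : GL (Fin 3) F} :
    ProjGenLinGroup.mk g = ProjGenLinGroup.mk k ↔ ∃ u : Fˣ, u • g = k := by
  rw [ProjGenLinGroup.mk_eq_mk_iff]
  simp only [smul_eq_mul_scalar]

theorem mk_one_iff {g : GL (Fin 3) F} (h : ProjGenLinGroup.mk g = 1) :
    ∃ u : Fˣ, g = u • (1 : GL (Fin 3) F) := by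
  rw [← ProjGenLinGroup.mk_one, eq_comm, mk_eq_iff] at h
  obtain ⟨u, hu⟩ := h
  exact ⟨u, hu.symm⟩

theorem smul_eq_self {u : Fˣ} {g : GL (Fin 3) F} (h : u • g = g) : u = 1 := by
  have h1 : u • (1 : GL (Fin 3) F) = 1 := by
    have := congrArg (fun k => k * g⁻¹) h
    simp only [smul_mul_assoc, mul_inv_cancel] at this
    exact this
  have h2 := congrArg (fun k : GL (Fin 3) F => (k : Matrix (Fin 3) (Fin 3) F) 0 0) h1
  simp only [val_smul, Units.val_one, Matrix.smul_apply, Matrix.one_apply_eq, smul_eq_mul,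
    mul_one] at h2
  exact Units.ext h2

/-- the determinant -/
def dt (g : GL (Fin 3) F) : F := (g : Matrix (Fin 3) (Fin 3) F).det

theorem dt_mul (g k : GL (Fin 3) F) : dt (g * k) = dt g * dt k := by
  rw [dt, Units.val_mul, Matrix.det_mul]; rfl

theorem dt_one : dt (1 : GL (Fin 3) F) = 1 := by rw [dt, Units.val_one, Matrix.det_one]

theorem dt_pow (g : GL (Fin 3) F) (n : ℕ) : dt (g ^ n) = dt g ^ n := by
  induction n with
  | zero => rw [pow_zero, pow_zero, dt_one]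
  | succ n ih => rw [pow_succ, pow_succ, dt_mul, ih]

theorem dt_smul (u : Fˣ) (g : GL (Fin 3) F) : dt (u • g) = (u : F) ^ 3 * dt g := by
  rw [dt, val_smul, Matrix.det_smul, Fintype.card_fin]; rfl

theorem dt_inv (g : GL (Fin 3) F) : dt g * dt g⁻¹ = 1 := by
  rw [← dt_mul, mul_inv_cancel, dt_one]

theorem dt_ne (g : GL (Fin 3) F) : dt g ≠ 0 := left_ne_zero_of_mul_eq_one (dt_inv g)

/-- a lift of an involution -/
theorem lift_two {c : GL (Fin 3) F} (h : ProjGenLinGroup.mk c ^ 2 = 1) :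
    ∃ u : Fˣ, (u • c) ^ 2 = 1 ∧ dt (u • c) = 1 := by
  rw [← map_pow] at h
  obtain ⟨μ, hμ⟩ := mk_one_iff h
  have hD : dt c ^ 2 = (μ : F) ^ 3 := by
    rw [← dt_pow, hμ, dt_smul, dt_one, mul_one]
  have hμ0 : (μ : F) ≠ 0 := μ.ne_zero
  have hc0 : dt c ≠ 0 := dt_ne c
  have hu0 : (μ : F) / dt c ≠ 0 := div_ne_zero hμ0 hc0
  refine ⟨Units.mk0 _ hu0, ?_, ?_⟩
  · rw [smul_pow, hμ, smul_smul]
    have h1 : (Units.mk0 ((μ : F) / dt c) hu0) ^ 2 * μ = 1 := by
      apply Units.ext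
      rw [Units.val_mul, Units.val_pow_eq_pow_val, Units.val_mk0, Units.val_one]
      field_simp
      linear_combination -hD
    rw [h1, one_smul]
  · rw [dt_smul, Units.val_mk0]
    field_simp
    linear_combination -hD

/-- a lift of an element `b` of order three -/
theorem lift_three {b g c : GL (Fin 3) F} (hb : ProjGenLinGroup.mk b ^ 3 = 1)
    (hc : c ^ 2 = 1)
    (h : ProjGenLinGroup.mk (g * b * g⁻¹ * c) ^ 2 = 1) :
    ∃ u : Fˣ, (u • b) ^ 3 = 1 ∧ dt (u • b) = 1 ∧ (g * (u • b) * g⁻¹ * c) ^ 2 = 1 := by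
  rw [← map_pow] at hb h
  obtain ⟨μ, hμ⟩ := mk_one_iff hb
  obtain ⟨ν, hν⟩ := mk_one_iff h
  have hci : c⁻¹ = c := inv_of_sq hc
  -- the conjugate of `b`
  set p : GL (Fin 3) F := g⁻¹ * c * g with hp
  have pbp : b * p * b = ν • p := by
    have e : b * p * b = g⁻¹ * (g * b * g⁻¹ * c) ^ 2 * c⁻¹ * g := by
      rw [hp, pow_two]; group
    rw [e, hν, mul_smul_comm, smul_mul_assoc, smul_mul_assoc, mul_one, hci]
  have pbp' : p * b * p⁻¹ = ν • b⁻¹ := by
    have e : p * b * p⁻¹ = b⁻¹ * (b * p * b) * p⁻¹ := by group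
    rw [e, pbp, mul_smul_comm, smul_mul_assoc]
    congr 1; group
  have e3 : p * b ^ 3 * p⁻¹ = (p * b * p⁻¹) ^ 3 := by
    rw [pow_three, pow_three]; group
  have hμν : μ = ν ^ 3 * μ⁻¹ := by
    rw [pbp', smul_pow, inv_pow, hμ, smul_inv, inv_one, mul_smul_comm, mul_one, smul_mul_assoc,
      mul_inv_cancel, smul_smul] at e3
    have h1 : (μ * (ν ^ 3 * μ⁻¹)⁻¹) • (1 : GL (Fin 3) F) = 1 := by
      rw [_root_.mul_comm μ, mul_smul, e3, smul_smul, inv_mul_cancel, one_smul]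
    have h2 := smul_eq_self h1
    exact mul_inv_eq_one.1 h2
  have hμ0 : (μ : F) ≠ 0 := μ.ne_zero
  have hν0 : (ν : F) ≠ 0 := ν.ne_zero
  have hF : (μ : F) ^ 2 = (ν : F) ^ 3 := by
    have h1 := congrArg (fun z : Fˣ => (z : F)) hμν
    simp only [Units.val_mul, Units.val_pow_eq_pow_val, Units.val_inv_eq_inv_val] at h1
    field_simp at h1
    exact h1
  have hD3 : dt b ^ 3 = (μ : F) ^ 3 := by
    rw [← dt_pow, hμ, dt_smul, dt_one, mul_one]
  have hp0 : dt p ≠ 0 := dt_ne p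
  have hD2 : dt b ^ 2 = (ν : F) ^ 3 := by
    have h1 : dt (b * p * b) = dt (ν • p) := by rw [pbp]
    rw [dt_mul, dt_mul, dt_smul] at h1
    apply mul_right_cancel₀ hp0
    linear_combination h1
  have hD : dt b = μ := by
    have h1 : (μ : F) ^ 2 * (dt b - μ) = 0 := by
      have h2 : dt b ^ 2 = (μ : F) ^ 2 := hD2.trans hF.symm
      linear_combination hD3 - dt b * h2
    rcases mul_eq_zero.1 h1 with h3 | h3
    · exact absurd h3 (pow_ne_zero 2 hμ0)
    · exact sub_eq_zero.1 h3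
  refine ⟨ν * μ⁻¹, ?_, ?_, ?_⟩
  · rw [smul_pow, hμ, smul_smul]
    have h1 : (ν * μ⁻¹) ^ 3 * μ = 1 := by
      apply Units.ext
      simp only [Units.val_mul, Units.val_pow_eq_pow_val, Units.val_inv_eq_inv_val, Units.val_one]
      field_simp
      linear_combination -hF
    rw [h1, one_smul]
  · rw [dt_smul, hD]
    simp only [Units.val_mul, Units.val_inv_eq_inv_val]
    field_simp
    linear_combination -hF
  · rw [mul_smul_comm, smul_mul_assoc, smul_mul_assoc, smul_pow, hν, smul_smul]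
    have h1 : (ν * μ⁻¹) ^ 2 * ν = 1 := by
      apply Units.ext
      simp only [Units.val_mul, Units.val_pow_eq_pow_val, Units.val_inv_eq_inv_val, Units.val_one]
      field_simp
      linear_combination -hF
    rw [h1, one_smul]

/-- the relation `(ac)³ = 1` lifts -/
theorem lift_prod {a c : GL (Fin 3) F} (a3 : a ^ 3 = 1) (c2 : c ^ 2 = 1) (da : dt a = 1)
    (dc : dt c = 1) (h : ProjGenLinGroup.mk (a * c) ^ 3 = 1) : (a * c) ^ 3 = 1 := by
  rw [← map_pow] at h
  obtain ⟨ν, hν⟩ := mk_one_iff h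
  have hci : c⁻¹ = c := inv_of_sq c2
  have hcc : c * c = 1 := by rw [← pow_two, c2]
  have haa : a * a = a⁻¹ := inv_three a3
  have hn3 : (ν : F) ^ 3 = 1 := by
    have h1 : dt ((a * c) ^ 3) = dt (ν • (1 : GL (Fin 3) F)) := by rw [hν]
    rw [dt_pow, dt_mul, da, dc, dt_smul, dt_one] at h1
    linear_combination -h1
  have cac : c * a * c = ν • (a⁻¹ * c * a⁻¹) := by
    have e : c * a * c = a⁻¹ * (a * c) ^ 3 * c⁻¹ * a⁻¹ := by rw [pow_three]; group
    rw [e, hν, mul_smul_comm, smul_mul_assoc, smul_mul_assoc, mul_one, hci]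
  set p : GL (Fin 3) F := a⁻¹ * c * a with hp
  have pp : p * p = 1 := conj_sq hcc
  have pcp : p * c * p = (ν * ν) • c := by
    have e : p * c * p = a⁻¹ * (c * a * c) * (a⁻¹ * (c * a)) := by rw [hp]; group
    have e2 : a⁻¹ * (a⁻¹ * c * a⁻¹) * (a⁻¹ * (c * a)) = (a * a)⁻¹ * c * (a * a)⁻¹ * (c * a) := by
      group
    have e3 : a * c * a * (c * a) = a * (c * a * c) * a := by group
    rw [e, cac, mul_smul_comm, smul_mul_assoc, e2, haa, inv_inv, e3, cac, mul_smul_comm,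
      smul_mul_assoc, smul_smul]
    congr 1; group
  have h4 : (ν * ν * (ν * ν)) • c = c := by
    have e : c = p * (p * c * p) * p := by
      have : p * (p * c * p) * p = (p * p) * c * (p * p) := by group
      rw [this, pp]; group
    have e2 : p * (p * c * p) * p = (ν * ν * (ν * ν)) • c := by
      rw [pcp, mul_smul_comm, smul_mul_assoc, pcp, smul_smul]
    rw [← e2]; exact e.symm
  have h5 := smul_eq_self h4
  have h6 : (ν : F) ^ 4 = 1 := by
    have h7 := congrArg (fun z : Fˣ => (z : F)) h5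
    simp only [Units.val_mul, Units.val_one] at h7
    linear_combination h7
  have h8 : ν = 1 := by
    apply Units.ext
    rw [Units.val_one]
    linear_combination h6 - (ν : F) * hn3
  rw [hν, h8, one_smul]

/-- the relations lift to `SL₃` -/
theorem lift_rel {α β x : PGL(3, F)} (h : Rel α β x) : ∃ a b c : GL (Fin 3) F,
    ProjGenLinGroup.mk a = α ∧ ProjGenLinGroup.mk b = β ∧ ProjGenLinGroup.mk c = x ∧
      Rel a b c ∧ dt a = 1 ∧ dt b = 1 ∧ dt c = 1 := by
  obtain ⟨a, rfl⟩ := ProjGenLinGroup.mk_surjective α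
  obtain ⟨b, rfl⟩ := ProjGenLinGroup.mk_surjective β
  obtain ⟨c, rfl⟩ := ProjGenLinGroup.mk_surjective x
  obtain ⟨u, c2, dc⟩ := lift_two h.x2
  obtain ⟨v, b3, db, hb⟩ := lift_three (g := a) h.b3 c2 (by
    rw [map_mul, mk_smul, ← map_mul, map_mul, map_mul, map_mul, map_inv]; exact h.h1)
  obtain ⟨w, a3, da, ha⟩ := lift_three (g := b) h.a3 c2 (by
    rw [map_mul, mk_smul, ← map_mul, map_mul, map_mul, map_mul, map_inv]; exact h.h2)
  refine ⟨w • a, v • b, u • c, mk_smul _ _, mk_smul _ _, mk_smul _ _,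
    ⟨a3, b3, c2, ?_, ?_, ?_, ?_⟩, da, db, dc⟩
  · refine lift_prod a3 c2 da dc ?_
    rw [map_mul, mk_smul, mk_smul]; exact h.ax
  · refine lift_prod b3 c2 db dc ?_
    rw [map_mul, mk_smul, mk_smul]; exact h.bx
  · have e : w • a * v • b * (w • a)⁻¹ = a * v • b * a⁻¹ := by
      rw [smul_inv, smul_mul_assoc, smul_mul_assoc, mul_smul_comm, smul_smul, mul_inv_cancel,
        one_smul]
    rw [e]; exact hb
  · have e : v • b * w • a * (v • b)⁻¹ = b * w • a * b⁻¹ := by
      rw [smul_inv, smul_mul_assoc, smul_mul_assoc, mul_smul_comm, smul_smul, mul_inv_cancel,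
        one_smul]
    rw [e]; exact ha

end Pool.Agent.Helper61.KT
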