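import Pool.Agent.Helper61.KT.Lift
import Pool.Agent.Helper79.KF.Pres

/-!
# `K` has no projective representation of degree three
-/

set_option autoImplicit false

open Matrix
open scoped MatrixGroups

namespace Pool.Agent.Helper61.KT

open Pool.Agent.Helper79.KF

variable {F : Type*} [Field F]

theorem t_smul (u : Fˣ) (g : GL (Fin 3) F) : t (u • g) = (u : F) * t g := by
  rw [t, val_smul, Matrix.trace_smul]; rfl

theorem rel_one {G : Type*} [Group G] {a b : G} (h : Rel a b 1) : a = 1 := by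
  have h2 := h.h2
  rw [mul_one] at h2
  have e : (b * a * b⁻¹) ^ 2 = b * a ^ 2 * b⁻¹ := by rw [pow_two, pow_two]; group
  rw [e, mul_inv_eq_one, mul_eq_left] at h2
  exact pow3_pow2 h.a3 h2

/-- The relations of `C` and `D` exclude each other in `PGL₃`. -/
theorem no_pgl3 {α β x y : PGL(3, F)} (hC : Rel α β x) (hD : Rel α β⁻¹ y) : α = 1 := by
  by_cases hx : x = 1
  · rw [hx] at hC; exact rel_one hC
  by_cases hy : y = 1
  · rw [hy] at hD; exact rel_one hD
  exfalso
  obtain ⟨a, b, c, rfl, rfl, rfl, R, da, db, dc⟩ := lift_rel hC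
  obtain ⟨a', b', d, ea, eb, rfl, R', da', db', dd⟩ := lift_rel hD
  obtain ⟨θ, rfl⟩ := mk_eq_iff.1 ea.symm
  rw [← map_inv] at eb
  obtain ⟨η, rfl⟩ := mk_eq_iff.1 eb.symm
  have hc1 : c ≠ 1 := fun e => hx (by rw [e, map_one])
  have hd1 : d ≠ 1 := fun e => hy (by rw [e, map_one])
  obtain ⟨k1, k2, k3⟩ := key R da db dc hc1
  obtain ⟨l1, l2, l3⟩ := key R' da' db' dd hd1
  -- the cubes of the scalars
  have hθ : (θ : F) ^ 3 = 1 := by
    have h1 := da'
    rw [dt_smul, da, mul_one] at h1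
    exact h1
  have hη : (η : F) ^ 3 = 1 := by
    have h1 := db'
    have h2 := dt_inv b
    rw [db, one_mul] at h2
    rw [dt_smul, h2, mul_one] at h1
    exact h1
  have e1 : t (θ • a * η • b⁻¹) = ((θ * η : Fˣ) : F) * t (a * b⁻¹) := by
    rw [smul_mul_smul_comm, t_smul]
  have e2 : t ((θ • a)⁻¹ * (η • b⁻¹)⁻¹) = (((θ * η)⁻¹ : Fˣ) : F) * t (a⁻¹ * b) := by
    rw [smul_inv, smul_inv, inv_inv, smul_mul_smul_comm, t_smul, ← mul_inv]
  have e3 : t (θ • a * (η • b⁻¹)⁻¹) = ((θ * η⁻¹ : Fˣ) : F) * t (a * b) := by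
    rw [smul_inv, inv_inv, smul_mul_smul_comm, t_smul]
  have e4 : t ((θ • a)⁻¹ * η • b⁻¹) = (((θ * η⁻¹)⁻¹ : Fˣ) : F) * t (a⁻¹ * b⁻¹) := by
    rw [smul_inv, smul_mul_smul_comm, t_smul, mul_inv, inv_inv]
  rw [e1, e2] at l1
  rw [e3, e4, ← k1] at l2
  rw [e1, e3, e4, ← k1] at l3
  set u : Fˣ := θ * η with hu
  set v : Fˣ := θ * η⁻¹ with hv
  have hv3 : (v : F) ^ 3 = 1 := by
    rw [hv]
    simp only [Units.val_mul, Units.val_inv_eq_inv_val]
    rw [mul_pow, inv_pow, hθ, hη]; norm_num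
  have uu : (u : F) * ((u⁻¹ : Fˣ) : F) = 1 := by rw [← Units.val_mul, mul_inv_cancel, Units.val_one]
  have vv : (v : F) * ((v⁻¹ : Fˣ) : F) = 1 := by rw [← Units.val_mul, mul_inv_cancel, Units.val_one]
  generalize t (a * b) = X at *
  generalize t (a * b⁻¹) = γ at *
  generalize t (a⁻¹ * b) = δ at *
  generalize ((u⁻¹ : Fˣ) : F) = u' at *
  generalize ((v⁻¹ : Fˣ) : F) = v' at *
  generalize (u : F) = u at *
  generalize (v : F) = v at *
  have f1 : γ * δ = (u * γ) ^ 2 := by
    linear_combination -(u * γ) * l1 - γ * δ * uu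
  have f2 : X ^ 2 - X + (u * γ) ^ 2 = 2 := by
    linear_combination k3 - X * k2 - f1
  have f3 : (u * γ) ^ 2 - u * γ + X ^ 2 = 2 := by
    linear_combination l3 - u * γ * l2 - X ^ 2 * vv
  have f4 : X = u * γ := by linear_combination f3 - f2
  have f5 : 2 * X ^ 2 - X = 2 := by
    rw [← f4] at f2
    linear_combination f2
  have f6 : (v - 1) * (v ^ 2 + v + 1) = 0 := by linear_combination hv3
  rcases mul_eq_zero.1 f6 with h | h
  · have v1 : v = 1 := by linear_combination h
    rw [v1, one_mul] at vv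
    rw [v1, vv] at l2
    have : (1 : F) = 0 := by linear_combination -f5 + (X - 1) * l2
    exact one_ne_zero this
  · have v1 : v + v' = -1 := by
      linear_combination v' * h - (v + 1) * vv
    have h1 : X = 1 := by linear_combination -l2 + X * v1
    rw [h1] at f5
    have : (1 : F) = 0 := by linear_combination -f5
    exact one_ne_zero this

theorem trivial_pgl3 (φ : K →* PGL(3, F)) : φ = 1 := by
  have R := allRel φ
  have hC := R.relC
  have hD := R.relD
  have hE := R.relE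
  have hF := R.relF
  have ha : φ (gen 0) = 1 := no_pgl3 hC hD
  -- if `A` dies then so do all generators
  have kill : ∀ b x : PGL(3, F), Rel (1 : PGL(3, F)) b x → x = 1 ∧ b = 1 := by
    intro b x h
    have hx : x = 1 := by
      have h1 := h.ax
      rw [one_mul] at h1
      exact pow3_pow2 h1 h.x2
    refine ⟨hx, ?_⟩
    have h2 := h.h1
    rw [hx, one_mul, inv_one, mul_one, mul_one] at h2
    exact pow3_pow2 h.b3 h2
  simp only [ha, inv_one] at hC hD hE hF
  obtain ⟨kc, kb⟩ := kill _ _ hC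
  obtain ⟨kd, -⟩ := kill _ _ hD
  obtain ⟨ke, -⟩ := kill _ _ hE
  obtain ⟨kf, -⟩ := kill _ _ hF
  have h : φ.range ≤ ⊥ := by
    apply range_le
    intro i
    rw [Subgroup.mem_bot]
    fin_cases i
    · exact ha
    · exact kb
    · exact kc
    · exact kd
    · exact ke
    · exact kf
  refine MonoidHom.ext fun k => ?_
  have : φ k ∈ (⊥ : Subgroup PGL(3, F)) := h ⟨k, rfl⟩
  rwa [Subgroup.mem_bot] at this

theorem trivial_le_one {n : ℕ} (hn : n ≤ 1) {G : Type*} [Group G] (φ : G →* PGL(n, F)) :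
    φ = 1 := by
  refine MonoidHom.ext fun k => ?_
  obtain ⟨g, hg⟩ := ProjGenLinGroup.mk_surjective (φ k)
  rw [← hg, MonoidHom.one_apply, ProjGenLinGroup.mk_eq_one, Subgroup.mem_center_iff]
  intro h
  apply Units.ext
  ext i j
  interval_cases n
  · exact i.elim0
  · rw [Subsingleton.elim i 0, Subsingleton.elim j 0]
    simp [Matrix.mul_apply, _root_.mul_comm]

end Pool.Agent.Helper61.KT
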