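import Mathlib

/-!
# Three by three matrices: involutions and elements of order three
-/

set_option autoImplicit false

open Matrix

namespace Pool.Agent.Helper61.KT

variable {F : Type*} [Field F]

/-- the sum of the principal `2 × 2` minors -/
def sg (X : Matrix (Fin 3) (Fin 3) F) : F :=
  (X 0 0 * X 1 1 - X 0 1 * X 1 0) + (X 0 0 * X 2 2 - X 0 2 * X 2 0) +
    (X 1 1 * X 2 2 - X 1 2 * X 2 1)

theorem cayley (X : Matrix (Fin 3) (Fin 3) F) :
    X * X * X - X.trace • (X * X) + sg X • X - X.det • (1 : Matrix (Fin 3) (Fin 3) F) = 0 := by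
  ext i j
  fin_cases i <;> fin_cases j <;>
    simp [Matrix.mul_apply, Fin.sum_univ_three, Matrix.trace_fin_three, Matrix.det_fin_three,
      sg] <;> ring

theorem adj_eq (X : Matrix (Fin 3) (Fin 3) F) :
    X.adjugate = X * X - X.trace • X + sg X • (1 : Matrix (Fin 3) (Fin 3) F) := by
  rw [Matrix.adjugate_fin_three]
  ext i j
  fin_cases i <;> fin_cases j <;>
    simp [Matrix.mul_apply, Fin.sum_univ_three, Matrix.trace_fin_three, sg] <;> ring

theorem trace_adj (X : Matrix (Fin 3) (Fin 3) F) : X.adjugate.trace = sg X := by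
  rw [Matrix.adjugate_fin_three, Matrix.trace_fin_three, sg]
  simp
  ring

theorem trace_inv {X Y : Matrix (Fin 3) (Fin 3) F} (h : X * Y = 1) (hd : X.det = 1) :
    Y.trace = sg X := by
  have h2 : Y = X.adjugate := by
    calc Y = (X.adjugate * X) * Y := by rw [Matrix.adjugate_mul, hd, one_smul, one_mul]
      _ = X.adjugate := by rw [mul_assoc, h, mul_one]
  rw [h2, trace_adj]

theorem trace_invol {c : Matrix (Fin 3) (Fin 3) F} (c2 : c * c = 1) (hd : c.det = 1)
    (hne : c ≠ 1) : c.trace = -1 := by
  have hs : c.trace = sg c := trace_inv c2 hd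
  have h := cayley c
  rw [← hs, hd, c2, one_mul, one_smul] at h
  have h2 : (1 + c.trace) • (c - 1) = 0 := by
    rw [← h]; module
  rcases smul_eq_zero.1 h2 with h3 | h3
  · linear_combination h3
  · exact absurd (sub_eq_zero.1 h3) hne

theorem minors {c : Matrix (Fin 3) (Fin 3) F} (c2 : c * c = 1) (hd : c.det = 1)
    (hne : c ≠ 1) (i j k l : Fin 3) :
    (c + 1) i k * (c + 1) l j = (c + 1) l k * (c + 1) i j := by
  have ht := trace_invol c2 hd hne
  have hs : c.trace = sg c := trace_inv c2 hd
  have hP : (c + 1).adjugate = 0 := by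
    rw [adj_eq]
    have h1 : (c + 1) * (c + 1) = (2 : F) • (c + 1) := by
      rw [add_mul, mul_add, c2, one_mul, mul_one]; module
    have h2 : (c + 1).trace = 2 := by
      rw [Matrix.trace_add, ht, Matrix.trace_one]; norm_num
    have h3 : sg (c + 1) = 0 := by
      have : sg (c + 1) = sg c + 2 * c.trace + 3 := by
        simp [sg, Matrix.trace_fin_three]; ring
      rw [this, ← hs, ht]; ring
    rw [h1, h2, h3]; simp
  generalize c + 1 = P at hP
  rw [Matrix.adjugate_fin_three] at hP
  have e00 := congr_fun (congr_fun hP 0) 0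
  have e01 := congr_fun (congr_fun hP 0) 1
  have e02 := congr_fun (congr_fun hP 0) 2
  have e10 := congr_fun (congr_fun hP 1) 0
  have e11 := congr_fun (congr_fun hP 1) 1
  have e12 := congr_fun (congr_fun hP 1) 2
  have e20 := congr_fun (congr_fun hP 2) 0
  have e21 := congr_fun (congr_fun hP 2) 1
  have e22 := congr_fun (congr_fun hP 2) 2
  simp at e00 e01 e02 e10 e11 e12 e20 e21 e22
  fin_cases i <;> fin_cases j <;> fin_cases k <;> fin_cases l <;> simp only [Fin.zero_eta,
    Fin.mk_one, Fin.reduceFinMk, Fin.isValue] <;>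
  first
  | ring1
  | linear_combination e00
  | linear_combination -e00
  | linear_combination e01
  | linear_combination -e01
  | linear_combination e02
  | linear_combination -e02
  | linear_combination e10
  | linear_combination -e10
  | linear_combination e11
  | linear_combination -e11
  | linear_combination e12
  | linear_combination -e12
  | linear_combination e20
  | linear_combination -e20
  | linear_combination e21
  | linear_combination -e21
  | linear_combination e22
  | linear_combination -e22

/-- `P m P = tr(P m) P` for a matrix all of whose `2 × 2` minors vanish -/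
theorem sandwich {P : Matrix (Fin 3) (Fin 3) F} (H : ∀ i j k l, P i k * P l j = P l k * P i j)
    (m : Matrix (Fin 3) (Fin 3) F) : P * m * P = (P * m).trace • P := by
  ext i j
  simp only [Matrix.mul_apply, Matrix.smul_apply, Matrix.trace, Matrix.diag_apply, smul_eq_mul]
  rw [Finset.sum_mul]
  refine Finset.sum_congr rfl fun l _ => ?_
  rw [Finset.sum_mul, Finset.sum_mul]
  refine Finset.sum_congr rfl fun k _ => ?_
  linear_combination m k l * H i j k l

theorem trace_three {A : Matrix (Fin 3) (Fin 3) F} (a3 : A * A * A = 1) (hd : A.det = 1)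
    (hns : ∀ z : F, A ≠ z • (1 : Matrix (Fin 3) (Fin 3) F)) : A.trace = 0 ∧ sg A = 0 := by
  have h := cayley A
  rw [a3, hd, one_smul] at h
  have h0 : sg A • A = A.trace • (A * A) := by
    have h' : sg A • A - A.trace • (A * A) = 0 := by rw [← h]; module
    exact sub_eq_zero.1 h'
  have h1 : sg A • (1 : Matrix (Fin 3) (Fin 3) F) = A.trace • A := by
    have h2 := congrArg (fun X => A * A * X) h0
    simp only [mul_smul_comm] at h2
    rw [a3] at h2
    rw [h2]
    congr 1
    calc A * A * (A * A) = (A * A * A) * A := by simp only [mul_assoc]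
      _ = A := by rw [a3, one_mul]
  by_cases ht : A.trace = 0
  · refine ⟨ht, ?_⟩
    rw [ht, zero_smul] at h1
    have := congr_fun (congr_fun h1 0) 0
    simpa using this
  · exfalso
    apply hns (A.trace⁻¹ * sg A)
    rw [mul_smul, h1, smul_smul, inv_mul_cancel₀ ht, one_smul]

end Pool.Agent.Helper61.KT
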