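import Mathlib

/-!
# Matrices of rank one
-/

set_option autoImplicit false
set_option linter.unusedSectionVars false

open Matrix

namespace Pool.Agent.Helper61.KT

variable {F : Type*} [Field F] {ι : Type*} [Fintype ι] [DecidableEq ι]

/-- A matrix of rank at most one is an outer product. -/
theorem exists_outer {R : Matrix ι ι F} (h : R.rank ≤ 1) :
    ∃ u w : ι → F, R = vecMulVec u w := by
  have h1 : Module.finrank F (LinearMap.range R.mulVecLin) ≤ 1 := h
  rw [finrank_le_one_iff] at h1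
  obtain ⟨v, hv⟩ := h1
  choose f hf using hv
  refine ⟨v, fun j => f ⟨R.mulVecLin (Pi.single j 1), ⟨_, rfl⟩⟩, ?_⟩
  ext i j
  have h2 := hf ⟨R.mulVecLin (Pi.single j 1), ⟨_, rfl⟩⟩
  have h3 := congrArg (fun z : LinearMap.range R.mulVecLin => (z : ι → F) i) h2
  have h4 : f ⟨R.mulVecLin (Pi.single j 1), ⟨_, rfl⟩⟩ * (v : ι → F) i =
      (R.mulVecLin (Pi.single j 1)) i := h3
  rw [vecMulVec_apply, mul_comm, h4, mulVecLin_apply, mulVec_single_one]
  rfl

theorem sandwich1 {R : Matrix ι ι F} (h : R.rank ≤ 1) (X : Matrix ι ι F) :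
    R * X * R = (X * R).trace • R := by
  obtain ⟨u, w, rfl⟩ := exists_outer h
  rw [vecMulVec_mul, vecMulVec_mul_vecMulVec, mul_vecMulVec, trace_vecMulVec]
  ext i j
  rw [Matrix.smul_apply, vecMulVec_apply, smul_eq_mul]
  simp only [vecMulVec_apply, Pi.smul_apply, smul_eq_mul]
  rw [← dotProduct_mulVec, dotProduct_comm]
  ring

theorem rank_add_le' (X Y : Matrix ι ι F) : (X + Y).rank ≤ X.rank + Y.rank := by
  rw [rank, rank, rank]
  refine le_trans (Submodule.finrank_mono ?_) (Submodule.finrank_add_le_finrank_add_finrank _ _)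
  rintro _ ⟨v, rfl⟩
  rw [mulVecLin_apply, add_mulVec]
  exact Submodule.add_mem_sup ⟨v, rfl⟩ ⟨v, rfl⟩

/-- two orthogonal idempotents (up to scalars) inside `Z` -/
theorem rank_two {X Y Z : Matrix ι ι F} {s : F} (hs : s ≠ 0) (hX : X * X = s • X)
    (hXY : X * Y = 0) (hZX : ∃ T, X = Z * T) (hZY : ∃ T, Y = Z * T) :
    X.rank + Y.rank ≤ Z.rank := by
  have hdis : LinearMap.range X.mulVecLin ⊓ LinearMap.range Y.mulVecLin = ⊥ := by
    rw [eq_bot_iff]
    rintro z ⟨⟨x, hx⟩, ⟨y, hy⟩⟩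
    rw [Submodule.mem_bot]
    rw [mulVecLin_apply] at hx hy
    have h1 : X *ᵥ z = s • z := by
      rw [← hx, mulVec_mulVec, hX, smul_mulVec]
    have h2 : X *ᵥ z = 0 := by
      rw [← hy, mulVec_mulVec, hXY, zero_mulVec]
    rw [h2] at h1
    exact (smul_eq_zero.1 h1.symm).resolve_left hs
  have h := Submodule.finrank_sup_add_finrank_inf_eq (LinearMap.range X.mulVecLin)
    (LinearMap.range Y.mulVecLin)
  rw [hdis, finrank_bot, add_zero] at h
  rw [rank, rank, ← h, rank]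
  apply Submodule.finrank_mono
  apply sup_le
  · rintro _ ⟨v, rfl⟩
    obtain ⟨T, hT⟩ := hZX
    refine ⟨T *ᵥ v, ?_⟩
    rw [mulVecLin_apply, mulVecLin_apply, mulVec_mulVec, ← hT]
  · rintro _ ⟨v, rfl⟩
    obtain ⟨T, hT⟩ := hZY
    refine ⟨T *ᵥ v, ?_⟩
    rw [mulVecLin_apply, mulVecLin_apply, mulVec_mulVec, ← hT]

/-- rank of a conjugate -/
theorem rank_conj_le {X Y S T : Matrix ι ι F} (h : Y = S * X * T) : Y.rank ≤ X.rank := by
  rw [h]
  exact le_trans (rank_mul_le_left _ _) (rank_mul_le_right _ _)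

end Pool.Agent.Helper61.KT
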