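import Pool.Agent.Helper61.KT.Main

/-!
# Every non-trivial image of `K` contains a symmetric group of degree four
-/

set_option autoImplicit false

namespace Pool.Agent.Helper61.KT

open Pool.Agent.Helper79.KF

variable {G : Type*} [Group G] {a b c : G}

/-- `x = c q` and `y = a` have orders two and three and their product has order four. -/
theorem orders (h : Rel a b c) (hc : c ≠ 1) :
    ∃ x y : G, orderOf x = 2 ∧ orderOf y = 3 ∧ orderOf (x * y) = 4 := by
  have c2 := cc h
  have hci : c⁻¹ = c := inv_of_sq h.x2
  set p : G := a⁻¹ * c * a with hp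
  set q : G := b⁻¹ * c * b with hq
  have pp : p * p = 1 := KT.conj_sq c2
  have qq : q * q = 1 := KT.conj_sq c2
  have qcq' : q * c * q = c := qcq h
  have pcp' : p * c * p = c := pcp h
  have qaq' : q * a * q = a⁻¹ := qaq h
  have pbp' : p * b * p = b⁻¹ := pbp h
  have cq : c * q = q * c := by
    calc c * q = q * c * q * q := by rw [qcq']
      _ = q * c * (q * q) := by group
      _ = q * c := by rw [qq, mul_one]
  have cp : c * p = p * c := by
    calc c * p = p * c * p * p := by rw [pcp']
      _ = p * c * (p * p) := by group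
      _ = p * c := by rw [pp, mul_one]
  have a1 : a ≠ 1 := by
    intro e
    have h1 := h.ax
    rw [e, one_mul] at h1
    exact hc (pow3_pow2 h1 h.x2)
  have c3 : c ^ 3 = c := by rw [pow_three, c2, mul_one]
  -- `p` and `c` are different
  have pc : c * p ≠ 1 := by
    intro e
    have e1 : p = c := by
      have := inv_eq_of_mul_eq_one_right e
      rw [← this, hci]
    have e2 : c * a = a * c := by
      calc c * a = a * p := by rw [hp]; group
        _ = a * c := by rw [e1]
    have h1 := h.ax
    have e3 : (a * c) ^ 3 = a ^ 3 * c ^ 3 := by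
      have hcom : Commute a c := e2.symm
      exact hcom.mul_pow 3
    rw [e3, h.a3, one_mul, c3] at h1
    exact hc h1
  -- `q` and `c` are different
  have qc : c * q ≠ 1 := by
    intro e
    have e1 : q = c := by
      have := inv_eq_of_mul_eq_one_right e
      rw [← this, hci]
    have e2 : c * b = b * c := by
      calc c * b = b * q := by rw [hq]; group
        _ = b * c := by rw [e1]
    have h1 := h.bx
    have e3 : (b * c) ^ 3 = b ^ 3 * c ^ 3 := by
      have hcom : Commute b c := e2.symm
      exact hcom.mul_pow 3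
    rw [e3, h.b3, one_mul, c3] at h1
    exact hc h1
  refine ⟨c * q, a, ?_, ?_, ?_⟩
  · refine orderOf_eq_prime ?_ qc
    rw [pow_two]
    calc c * q * (c * q) = c * q * (q * c) := by rw [cq]
      _ = c * (q * q) * c := by group
      _ = 1 := by rw [qq, mul_one, c2]
  · exact orderOf_eq_prime h.a3 a1
  · have sq : (c * q * a) ^ 2 = c * p := by
      have e1 : q * a = a⁻¹ * q := by
        calc q * a = q * a * q * q := by
              have : q * a * q * q = q * a * (q * q) := by group
              rw [this, qq, mul_one]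
          _ = a⁻¹ * q := by rw [qaq']
      have e2 : q * c * q⁻¹ = c := by
        have : q⁻¹ = q := inv_eq_of_mul_eq_one_left qq
        rw [this, qcq']
      calc (c * q * a) ^ 2 = c * (q * a) * (c * (q * a)) := by rw [pow_two]; group
        _ = c * (a⁻¹ * q) * (c * (q * a)) := by rw [e1]
        _ = c * a⁻¹ * (q * c * q⁻¹) * (q * q) * a := by group
        _ = c * p := by rw [e2, qq, hp]; group
    have h4 : (c * q * a) ^ 2 ^ (1 + 1) = 1 := by
      have : (c * q * a) ^ 2 ^ (1 + 1) = ((c * q * a) ^ 2) ^ 2 := by
        rw [← pow_mul]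
        norm_num
      rw [this, sq, pow_two]
      calc c * p * (c * p) = c * p * (p * c) := by rw [cp]
        _ = c * (p * p) * c := by group
        _ = 1 := by rw [pp, mul_one, c2]
    have h2 : ¬ (c * q * a) ^ 2 ^ 1 = 1 := by
      rw [pow_one, sq]; exact pc
    have : Fact (Nat.Prime 2) := ⟨Nat.prime_two⟩
    have := orderOf_eq_prime_pow h2 h4
    rw [this]; norm_num

/-- if `A` dies then so do all generators -/
theorem trivial_of_gen (φ : K →* G) (ha : φ (gen 0) = 1) : φ = 1 := by
  have R := allRel φ
  have hC := R.relC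
  have hD := R.relD
  have hE := R.relE
  have hF := R.relF
  have kill : ∀ b x : G, Rel (1 : G) b x → x = 1 ∧ b = 1 := by
    intro b x h
    have hx : x = 1 := by
      have h1 := h.ax
      rw [one_mul] at h1
      exact pow3_pow2 h1 h.x2
    refine ⟨hx, ?_⟩
    have h2 := h.h1
    rw [hx, one_mul, inv_one, mul_one, mul_one] at h2
    exact pow3_pow2 h.b3 h2
  simp only [ha, inv_one] at hC hD hE hF
  obtain ⟨kc, kb⟩ := kill _ _ hC
  obtain ⟨kd, -⟩ := kill _ _ hD
  obtain ⟨ke, -⟩ := kill _ _ hE
  obtain ⟨kf, -⟩ := kill _ _ hF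
  have h : φ.range ≤ ⊥ := by
    apply range_le
    intro i
    rw [Subgroup.mem_bot]
    fin_cases i
    · exact ha
    · exact kb
    · exact kc
    · exact kd
    · exact ke
    · exact kf
  refine MonoidHom.ext fun k => ?_
  have : φ k ∈ (⊥ : Subgroup G) := h ⟨k, rfl⟩
  rwa [Subgroup.mem_bot] at this

theorem trivial_of_orders
    (hG : ∀ x y : G, orderOf x = 2 → orderOf y = 3 → orderOf (x * y) ≠ 4) (φ : K →* G) :
    φ = 1 := by
  have hC := (allRel φ).relC
  by_cases hc : φ (gen 2) = 1
  · have hC' : Rel (φ (gen 0)) (φ (gen 1)) (φ (gen 2)) := hC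
    rw [hc] at hC'
    exact trivial_of_gen φ (rel_one hC')
  · obtain ⟨x, y, h1, h2, h3⟩ := orders hC hc
    exact absurd h3 (hG x y h1 h2)

end Pool.Agent.Helper61.KT
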