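import Pool.Agent.Helper61.KT.Key

/-!
# Trace identities for the relations of `A, B, C` in `SL₃` (main lemma)
-/

set_option autoImplicit false

open Matrix
open scoped MatrixGroups

namespace Pool.Agent.Helper61.KT

open Pool.Agent.Helper79.KF

variable {F : Type*} [Field F]

theorem rel_symm {G : Type*} [Group G] {a b c : G} (h : Rel a b c) : Rel b a c :=
  ⟨h.b3, h.a3, h.x2, h.bx, h.ax, h.h2, h.h1⟩

theorem not_scalar {a b c : GL (Fin 3) F} (h : Rel a b c) (hc : c ≠ 1) (z : F) :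
    (a : Matrix (Fin 3) (Fin 3) F) ≠ z • (1 : Matrix (Fin 3) (Fin 3) F) := by
  intro ha
  have hcomm : ∀ g : GL (Fin 3) F, a * g = g * a := by
    intro g
    apply Units.ext
    rw [Units.val_mul, Units.val_mul, ha]; simp
  apply hc
  have h2 := h.h2
  rw [← hcomm b, mul_inv_cancel_right, pow_two] at h2
  have e : a * c * (a * c) = a * a * (c * c) := by
    rw [mul_assoc a c, ← mul_assoc c a c, ← hcomm c]; group
  rw [e, cc h, mul_one, inv_three h.a3, inv_eq_one] at h2
  have h3 := h.ax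
  rw [h2, one_mul, pow_three, cc h, mul_one] at h3
  exact h3

theorem t_zero {a : GL (Fin 3) F} (a3 : a ^ 3 = 1)
    (da : (a : Matrix (Fin 3) (Fin 3) F).det = 1)
    (hns : ∀ z : F, (a : Matrix (Fin 3) (Fin 3) F) ≠ z • (1 : Matrix (Fin 3) (Fin 3) F)) :
    t a = 0 ∧ t a⁻¹ = 0 := by
  have h1 : (a : Matrix (Fin 3) (Fin 3) F) * (a : Matrix (Fin 3) (Fin 3) F) *
      (a : Matrix (Fin 3) (Fin 3) F) = 1 := by
    rw [← Units.val_mul, ← Units.val_mul, mul_assoc, ← pow_three, a3, Units.val_one]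
  obtain ⟨h2, h3⟩ := trace_three h1 da hns
  refine ⟨h2, ?_⟩
  have h4 : (a : Matrix (Fin 3) (Fin 3) F) * ((a⁻¹ : GL (Fin 3) F) : Matrix (Fin 3) (Fin 3) F) = 1 := by
    rw [← Units.val_mul, mul_inv_cancel, Units.val_one]
  rw [t, trace_inv h4 da, h3]

/-- The seven trace relations which come from conjugation by `p` and `q`. -/
theorem traces {a b c : GL (Fin 3) F} (h : Rel a b c) :
    t (a * b) = t (a⁻¹ * b * c) ∧ t (a⁻¹ * b⁻¹) = t (c * a⁻¹ * b) ∧
    t (a⁻¹ * b) = t (a * b * c) ∧ t (a * b⁻¹) = t (a * c * b) ∧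
    t (a⁻¹ * b) = t (c * a⁻¹ * b⁻¹) ∧ t (a * b⁻¹) = t (a⁻¹ * c * b⁻¹) ∧
    t (a * b) = t (a * c * b⁻¹) := by
  have hc := cc h
  have hp : (a⁻¹ * c * a) * (a⁻¹ * c * a) = 1 := conj_sq hc
  have hq : (b⁻¹ * c * b) * (b⁻¹ * c * b) = 1 := conj_sq hc
  have hc' : c⁻¹ = c := inv_of_sq h.x2
  have pai := conj_inv hp (pap h)
  have pbi := conj_inv hp (pbp h)
  have qai := conj_inv hq (qaq h)
  have qbi := conj_inv hq (qbq h)
  refine ⟨?_, ?_, ?_, ?_, ?_, ?_, ?_⟩
  · refine t_conj hq ?_
    rw [conj_mul hq, qaq h, qbq h, mul_assoc]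
  · refine t_conj hp ?_
    rw [conj_mul hp, pai, pbi, inv_inv, _root_.mul_inv_rev, hc']
  · refine t_conj hq ?_
    rw [conj_mul hq, qai, qbq h, inv_inv, mul_assoc]
  · refine t_conj hp ?_
    rw [conj_mul hp, pap h, pbi, inv_inv]
  · refine t_conj hp ?_
    rw [conj_mul hp, pai, pbp h, _root_.mul_inv_rev, hc']
  · refine t_conj hq ?_
    rw [conj_mul hq, qaq h, qbi, _root_.mul_inv_rev, hc', mul_assoc]
  · refine t_conj hp ?_
    rw [conj_mul hp, pap h, pbp h]

theorem key {a b c : GL (Fin 3) F} (h : Rel a b c)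
    (da : (a : Matrix (Fin 3) (Fin 3) F).det = 1) (db : (b : Matrix (Fin 3) (Fin 3) F).det = 1)
    (dc : (c : Matrix (Fin 3) (Fin 3) F).det = 1) (hc : c ≠ 1) :
    t (a * b) = t (a⁻¹ * b⁻¹) ∧ t (a * b⁻¹) + t (a⁻¹ * b) = -1 ∧
      (t (a * b) + t (a * b⁻¹)) * (t (a * b) + t (a⁻¹ * b)) = 2 := by
  obtain ⟨ta, tai⟩ := t_zero h.a3 da (not_scalar h hc)
  obtain ⟨tb, tbi⟩ := t_zero h.b3 db (not_scalar (rel_symm h) hc)
  have c2 := cc h
  have hp : (a⁻¹ * c * a) * (a⁻¹ * c * a) = 1 := conj_sq c2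
  have hq : (b⁻¹ * c * b) * (b⁻¹ * c * b) = 1 := conj_sq c2
  have hc' : c⁻¹ = c := inv_of_sq h.x2
  obtain ⟨T1, T1', T2, T3, T4, T5, T6⟩ := traces h
  have aa := inv_three h.a3
  have bb := inv_three h.b3
  have aia : a⁻¹ * a⁻¹ = a := by rw [← _root_.mul_inv_rev, aa, inv_inv]
  have bib : b⁻¹ * b⁻¹ = b := by rw [← _root_.mul_inv_rev, bb, inv_inv]
  have hab : t (a * b) = t (a⁻¹ * b⁻¹) := by
    rw [T1, T1', mul_assoc c, t_comm c]
  -- traces with c
  have ca : t (c * a) = 0 := by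
    rw [t_comm, ← t_conj hp (pap h), ta]
  have cai : t (c * a⁻¹) = 0 := by
    have h1 := conj_inv hp (pap h)
    rw [_root_.mul_inv_rev, hc'] at h1
    rw [← t_conj hp h1, tai]
  have cb : t (c * b) = 0 := by
    rw [t_comm, ← t_conj hq (qbq h), tb]
  have cbi : t (c * b⁻¹) = 0 := by
    have h1 := conj_inv hq (qbq h)
    rw [_root_.mul_inv_rev, hc'] at h1
    rw [← t_conj hq h1, tbi]
  -- the rank one matrix P
  have hC2 : (c : Matrix (Fin 3) (Fin 3) F) * (c : Matrix (Fin 3) (Fin 3) F) = 1 := by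
    rw [← Units.val_mul, c2, Units.val_one]
  have hC1 : (c : Matrix (Fin 3) (Fin 3) F) ≠ 1 := fun e => hc (Units.ext e)
  have tc : t c = -1 := trace_invol hC2 dc hC1
  set P : Matrix (Fin 3) (Fin 3) F := (c : Matrix (Fin 3) (Fin 3) F) + 1 with hP
  have S : ∀ m, P * m * P = (P * m).trace • P := sandwich (minors hC2 dc hC1)
  have r : ∀ g : GL (Fin 3) F, (P * (g : Matrix (Fin 3) (Fin 3) F)).trace = t (c * g) + t g := by
    intro g
    rw [hP, add_mul, one_mul, Matrix.trace_add, t, t, Units.val_mul]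
  have SG : ∀ g : GL (Fin 3) F, P * (g : Matrix (Fin 3) (Fin 3) F) * P = (t (c * g) + t g) • P := by
    intro g; rw [S, r]
  have PP : P * P = (2 : F) • P := by
    rw [hP, add_mul, mul_add, hC2, one_mul, mul_one]; module
  have P0 : P ≠ 0 := by
    intro h0
    have h1 : (c : Matrix (Fin 3) (Fin 3) F) = -1 := eq_neg_of_add_eq_zero_left h0
    rw [h1, Matrix.det_neg, Matrix.det_one, Fintype.card_fin, mul_one] at dc
    have h2 : (-1 : F) = 1 := by linear_combination dc
    apply hC1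
    rw [h1]
    have h3 : (-1 : Matrix (Fin 3) (Fin 3) F) = (-1 : F) • (1 : Matrix (Fin 3) (Fin 3) F) := by
      simp
    rw [h3, h2, one_smul]
  have EX : ∀ g k : GL (Fin 3) F, (P * (g : Matrix (Fin 3) (Fin 3) F) * P *
      (k : Matrix (Fin 3) (Fin 3) F)).trace =
      t (c * g * c * k) + t (c * g * k) + t (g * c * k) + t (g * k) := by
    intro g k
    simp only [hP, add_mul, mul_add, one_mul, mul_one, Matrix.trace_add, t, Units.val_mul]
    ring
  set X := t (a * b) with hX
  set γ := t (a * b⁻¹) with hγ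
  set δ := t (a⁻¹ * b) with hδ
  have Z1 : t (c * a * c * b) = -(X + γ + δ) := by
    have h1 := EX a b
    rw [SG a, ca, ta, add_zero, zero_smul, zero_mul, Matrix.trace_zero, mul_assoc c a b,
      t_comm c (a * b), ← T2, ← T3] at h1
    linear_combination -h1
  have Z2 : t (c * b * c * a) = -(X + γ + δ) := by
    have h1 := EX b a
    rw [SG b, cb, tb, add_zero, zero_smul, zero_mul, Matrix.trace_zero, t_comm (c * b) a,
      t_comm (b * c) a, ← mul_assoc a c b, ← mul_assoc a b c, ← T2, ← T3, t_comm b a, ← hX] at h1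
    linear_combination -h1
  have Z3 : t (c * a⁻¹ * c * b⁻¹) = -(X + γ + δ) := by
    have h1 := EX a⁻¹ b⁻¹
    rw [SG a⁻¹, cai, tai, add_zero, zero_smul, zero_mul, Matrix.trace_zero, ← T4, ← T5,
      ← hab] at h1
    linear_combination -h1
  have pbi := conj_inv hp (pbp h)
  rw [inv_inv] at pbi
  have qai := conj_inv hq (qaq h)
  rw [inv_inv] at qai
  have rabi : t (c * (a * b⁻¹)) + t (a * b⁻¹) = -(X + δ) := by
    have h1 : t (c * (a * b⁻¹)) = t (c * a * c * b) := by
      refine t_conj hp ?_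
      rw [conj_mul hp, conj_mul hp, pcp h, pap h, pbi]
      simp only [mul_assoc]
    rw [h1, Z1, ← hγ]; ring
  have rbai : t (c * (b * a⁻¹)) + t (b * a⁻¹) = -(X + γ) := by
    have h1 : t (c * (b * a⁻¹)) = t (c * b * c * a) := by
      refine t_conj hq ?_
      rw [conj_mul hq, conj_mul hq, qcq h, qbq h, qai]
      simp only [mul_assoc]
    rw [h1, Z2, t_comm b a⁻¹, ← hδ]; ring
  -- matrices
  set A : Matrix (Fin 3) (Fin 3) F := (a : Matrix (Fin 3) (Fin 3) F) with hA
  set A' : Matrix (Fin 3) (Fin 3) F := ((a⁻¹ : GL (Fin 3) F) : Matrix (Fin 3) (Fin 3) F) with hA'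
  set B : Matrix (Fin 3) (Fin 3) F := (b : Matrix (Fin 3) (Fin 3) F) with hB
  set B' : Matrix (Fin 3) (Fin 3) F := ((b⁻¹ : GL (Fin 3) F) : Matrix (Fin 3) (Fin 3) F) with hB'
  have A'A : A' * A = 1 := by rw [hA, hA', ← Units.val_mul, inv_mul_cancel, Units.val_one]
  have AA' : A * A' = 1 := by rw [hA, hA', ← Units.val_mul, mul_inv_cancel, Units.val_one]
  have B'B : B' * B = 1 := by rw [hB, hB', ← Units.val_mul, inv_mul_cancel, Units.val_one]
  have BB' : B * B' = 1 := by rw [hB, hB', ← Units.val_mul, mul_inv_cancel, Units.val_one]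
  have BB : B * B = B' := by rw [hB, hB', ← Units.val_mul, bb]
  have B'B' : B' * B' = B := by rw [hB, hB', ← Units.val_mul, bib]
  have PAP : P * A * P = 0 := by rw [SG a, ca, ta, add_zero, zero_smul]
  have PA'P : P * A' * P = 0 := by rw [SG a⁻¹, cai, tai, add_zero, zero_smul]
  have PB'P : P * B' * P = 0 := by rw [SG b⁻¹, cbi, tbi, add_zero, zero_smul]
  have SG2 : ∀ g k : GL (Fin 3) F, P * ((g : Matrix (Fin 3) (Fin 3) F) *
      (k : Matrix (Fin 3) (Fin 3) F)) * P = (t (c * (g * k)) + t (g * k)) • P := by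
    intro g k
    rw [← Units.val_mul, SG]
  have PABP : P * (A * B') * P = (-(X + δ)) • P := by rw [SG2 a b⁻¹, rabi]
  have PBAP : P * (B * A') * P = (-(X + γ)) • P := by rw [SG2 b a⁻¹, rbai]
  have M1 : A' * P * A * B' - B' = B * A' * P * A - B := by
    have g1 : a⁻¹ * c * a * b⁻¹ = b * a⁻¹ * c * a := by
      have e : a⁻¹ * c * a * b⁻¹ = (a⁻¹ * c * a * b⁻¹ * (a⁻¹ * c * a)) * (a⁻¹ * c * a)⁻¹ := by
        group
      rw [e, pbi, inv_eq_of_mul_eq_one_left hp]
      group
    have g2 := congrArg (fun g : GL (Fin 3) F => (g : Matrix (Fin 3) (Fin 3) F)) g1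
    simp only [Units.val_mul] at g2
    rw [← hA, ← hA', ← hB, ← hB'] at g2
    have e1 : A' * P * A * B' - B' = A' * (c : Matrix (Fin 3) (Fin 3) F) * A * B' := by
      rw [hP, mul_add, add_mul, add_mul, mul_one, A'A, one_mul]; abel
    have e2 : B * A' * P * A - B = B * A' * (c : Matrix (Fin 3) (Fin 3) F) * A := by
      rw [hP, mul_add, add_mul, mul_one, mul_assoc B A' A, A'A, mul_one]; abel
    rw [e1, e2, g2]
  have E4 : B * P = B' * P + (X + δ) • (A' * P) := by
    have h1 := congrArg (fun Y => Y * P) M1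
    simp only [sub_mul] at h1
    have e1 : A' * P * A * B' * P = (-(X + δ)) • (A' * P) := by
      have : A' * P * A * B' * P = A' * (P * (A * B') * P) := by simp only [mul_assoc]
      rw [this, PABP, mul_smul_comm]
    have e2 : B * A' * P * A * P = 0 := by
      have : B * A' * P * A * P = B * A' * (P * A * P) := by simp only [mul_assoc]
      rw [this, PAP, mul_zero]
    rw [e1, e2] at h1
    have h2 : B * P - (B' * P + (X + δ) • (A' * P)) = 0 := by
      have h3 : B * P = -(-(X + δ) • (A' * P) - B' * P) := by rw [h1]; simp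
      rw [h3]; module
    exact sub_eq_zero.1 h2
  have E8 : P * B' = P * B + (X + γ) • (P * A) := by
    have h1 := congrArg (fun Y => P * Y) M1
    simp only [mul_sub] at h1
    have e1 : P * (A' * P * A * B') = 0 := by
      have : P * (A' * P * A * B') = (P * A' * P) * (A * B') := by simp only [mul_assoc]
      rw [this, PA'P, zero_mul]
    have e2 : P * (B * A' * P * A) = (-(X + γ)) • (P * A) := by
      have : P * (B * A' * P * A) = (P * (B * A') * P) * A := by simp only [mul_assoc]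
      rw [this, PBAP, smul_mul_assoc]
    rw [e1, e2, zero_sub] at h1
    have h3 : P * B' = -(-(X + γ) • (P * A) - P * B) := by rw [← h1]; simp
    rw [h3]; module
  have E5 : B' * P = P + (X + δ) • (B * A' * P) := by
    have h1 := congrArg (fun Y => B * Y) E4
    simp only [mul_add, mul_smul_comm, ← mul_assoc] at h1
    rw [BB, BB', one_mul] at h1
    exact h1
  have E9 : P * B = P + (X + γ) • (P * A * B') := by
    have h1 := congrArg (fun Y => Y * B') E8
    simp only [add_mul, smul_mul_assoc] at h1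
    rw [mul_assoc P B' B', B'B', mul_assoc P B B', BB', mul_one] at h1
    exact h1
  have smul_P : ∀ x y : F, x • P = y • P → x = y := by
    intro x y hxy
    have h1 : (x - y) • P = 0 := by rw [sub_smul, hxy, sub_self]
    rcases smul_eq_zero.1 h1 with h2 | h2
    · exact sub_eq_zero.1 h2
    · exact absurd h2 P0
  have K6 : (X + γ) * (X + δ) = 2 := by
    have h1 := congrArg (fun Y => P * Y) E5
    simp only [mul_add, mul_smul_comm] at h1
    have e1 : P * (B * A' * P) = P * (B * A') * P := by simp only [mul_assoc]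
    rw [← mul_assoc P B' P, PB'P, PP, e1, PBAP, smul_smul, ← add_smul] at h1
    have h2 : (0 : F) = 2 + (X + δ) * -(X + γ) := smul_P 0 _ (by rw [zero_smul]; exact h1)
    linear_combination h2
  have K7 : (X + δ) * (1 + γ + δ) = 0 := by
    have h1 := congrArg (fun Y => P * A' * Y) E5
    simp only [mul_add, mul_smul_comm] at h1
    have e1 : P * A' * (B * A' * P) = P * ((a⁻¹ * b * a⁻¹ : GL (Fin 3) F) : Matrix (Fin 3) (Fin 3) F) * P := by
      rw [Units.val_mul, Units.val_mul, ← hA', ← hB]; simp only [mul_assoc]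
    have e2 : P * A' * (B' * P) = P * (A' * B') * P := by simp only [mul_assoc]
    have e3 : t (c * (a⁻¹ * b * a⁻¹)) = t (c * a * c * b) := by
      rw [← mul_assoc, t_comm _ a⁻¹, cac h]
      exact t_eq (by group)
    have e4 : t (a⁻¹ * b * a⁻¹) = X := by
      rw [t_comm, ← mul_assoc, aia]
    rw [e2, SG2 a⁻¹ b⁻¹, PA'P, e1, SG, e3, e4, Z1, ← hab, ← mul_assoc c a⁻¹ b⁻¹, ← T4, zero_add,
      smul_smul] at h1
    have h2 := smul_P _ _ h1
    linear_combination h2
  have K8 : (X + γ) * (1 + γ + δ) = 0 := by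
    have h1 := congrArg (fun Y => Y * (A * P)) E9
    simp only [add_mul, smul_mul_assoc] at h1
    have e1 : P * A * B' * (A * P) = P * ((a * b⁻¹ * a : GL (Fin 3) F) : Matrix (Fin 3) (Fin 3) F) * P := by
      rw [Units.val_mul, Units.val_mul, ← hA, ← hB']; simp only [mul_assoc]
    have e2 : P * B * (A * P) = P * (B * A) * P := by simp only [mul_assoc]
    have e3 : t (c * (a * b⁻¹ * a)) = t (c * a⁻¹ * c * b⁻¹) := by
      have e5 : a * c * a = c * a⁻¹ * c := by
        have e6 : c * a⁻¹ * c = (c⁻¹ * a * c⁻¹)⁻¹ := by group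
        have e8 : (a⁻¹ * c * a⁻¹)⁻¹ = a * c⁻¹ * a := by group
        rw [e6, hc', cac h, e8, hc']
      rw [← mul_assoc, t_comm _ a, ← e5]
      exact t_eq (by group)
    have e4 : t (a * b⁻¹ * a) = X := by
      rw [t_comm, ← mul_assoc, aa, ← hab]
    have e7 : t (c * (b * a)) = γ := by
      rw [← mul_assoc, t_comm, ← mul_assoc, ← T3]
    rw [e2, SG2 b a, ← mul_assoc P A P, PAP, e1, SG, e3, e4, Z3, e7, t_comm b a, ← hX, zero_add,
      smul_smul] at h1
    have h2 := smul_P _ _ h1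
    linear_combination h2
  refine ⟨hab, ?_, K6⟩
  by_contra hne
  have hne' : (1 + γ + δ) ≠ 0 := fun e => hne (by linear_combination e)
  have z1 : X + δ = 0 := (mul_eq_zero.1 K7).resolve_right hne'
  have z2 : X + γ = 0 := (mul_eq_zero.1 K8).resolve_right hne'
  rw [z1, zero_smul, add_zero] at E5
  rw [z2, zero_smul, add_zero] at E9
  have h1 : B' * P * B = P := by rw [E5, E9]
  rw [hP, mul_add, add_mul, mul_one, B'B] at h1
  have h2 : B' * (c : Matrix (Fin 3) (Fin 3) F) * B = (c : Matrix (Fin 3) (Fin 3) F) :=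
    add_right_cancel h1
  have h3 : b⁻¹ * c * b = c := by
    apply Units.ext
    rw [Units.val_mul, Units.val_mul, ← hB, ← hB', h2]
  have h4 : c * b = b * c := by
    have : c * b = b * (b⁻¹ * c * b) := by group
    rw [this, h3]
  apply hc
  have h5 := h.bx
  have e : (b * c) ^ 3 = b ^ 3 * (c * c) * c := by
    have e1 : (b * c) ^ 3 = b * (c * b) * (c * b) * c := by rw [pow_three]; group
    rw [e1, h4]
    have e2 : b * (b * c) * (b * c) * c = b * b * (c * b) * c * c := by group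
    rw [e2, h4, pow_three]; group
  rw [e, h.b3, c2, one_mul, one_mul] at h5
  exact h5

end Pool.Agent.Helper61.KT
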