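import Pool.Agent.Helper61.KT.Rank
import Pool.Agent.Helper61.KT.Sfour

/-!
# The relations of `A, B, C` and of `p = A⁻¹ C A`, `q = B⁻¹ C B` in a ring
-/

set_option autoImplicit false

open Matrix

namespace Pool.Agent.Helper61.KT

open Pool.Agent.Helper79.KF

section group

variable {G : Type*} [Group G] {a b c : G}

theorem g_pc (h : Rel a b c) : a⁻¹ * c * a * c = c * (a⁻¹ * c * a) := by
  have pp : (a⁻¹ * c * a) * (a⁻¹ * c * a) = 1 := KT.conj_sq (cc h)
  have e := pcp h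
  calc a⁻¹ * c * a * c = a⁻¹ * c * a * c * ((a⁻¹ * c * a) * (a⁻¹ * c * a)) := by
        rw [pp, mul_one]
    _ = a⁻¹ * c * a * c * (a⁻¹ * c * a) * (a⁻¹ * c * a) := by group
    _ = c * (a⁻¹ * c * a) := by rw [e]

theorem g_ac (h : Rel a b c) : a * c = c * (a⁻¹ * c * a * a) := by
  have e : c * (a⁻¹ * c * a * a) = c * (a⁻¹ * c * (a * a)) := by group
  rw [e, inv_three h.a3, ← cac h]
  have e2 : c * (c * a * c) = c * c * a * c := by group
  rw [e2, cc h, one_mul]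

theorem g_ap : a * (a⁻¹ * c * a) = c * a := by group

theorem g_aic : a⁻¹ * c = a⁻¹ * c * a * a⁻¹ := by group

theorem g_aip (h : Rel a b c) : a⁻¹ * (a⁻¹ * c * a) = c * (a⁻¹ * c * a * a⁻¹) := by
  have e1 : a⁻¹ * (a⁻¹ * c * a) = (a * a)⁻¹ * c * a := by group
  have e2 : c * (a⁻¹ * c * a * a⁻¹) = (c⁻¹ * a * c⁻¹)⁻¹ := by group
  have e3 : (a⁻¹ * c * a⁻¹)⁻¹ = a * c⁻¹ * a := by group
  rw [e1, inv_three h.a3, inv_inv, e2, inv_of_sq h.x2, cac h, e3, inv_of_sq h.x2]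

theorem g_qa (h : Rel a b c) : b⁻¹ * c * b * a = a⁻¹ * (b⁻¹ * c * b) := by
  have qq : (b⁻¹ * c * b) * (b⁻¹ * c * b) = 1 := KT.conj_sq (cc h)
  have e := qaq h
  calc b⁻¹ * c * b * a = b⁻¹ * c * b * a * ((b⁻¹ * c * b) * (b⁻¹ * c * b)) := by
        rw [qq, mul_one]
    _ = b⁻¹ * c * b * a * (b⁻¹ * c * b) * (b⁻¹ * c * b) := by group
    _ = a⁻¹ * (b⁻¹ * c * b) := by rw [e]

theorem g_qai (h : Rel a b c) : b⁻¹ * c * b * a⁻¹ = a * (b⁻¹ * c * b) := by
  have e := g_qa h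
  calc b⁻¹ * c * b * a⁻¹ = a * (a⁻¹ * (b⁻¹ * c * b)) * a⁻¹ := by group
    _ = a * (b⁻¹ * c * b * a) * a⁻¹ := by rw [e]
    _ = a * (b⁻¹ * c * b) := by group

theorem g_qp (h : Rel a b c) :
    b⁻¹ * c * b * (a⁻¹ * c * a) = c * (a⁻¹ * c * a * (b⁻¹ * c * b)) := by
  have h1 := g_qai h
  have h2 := g_qa h
  have h3 : b⁻¹ * c * b * c = c * (b⁻¹ * c * b) := g_pc (rel_symm h)
  have h4 := g_ac h
  calc b⁻¹ * c * b * (a⁻¹ * c * a) = b⁻¹ * c * b * a⁻¹ * c * a := by group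
    _ = a * (b⁻¹ * c * b) * c * a := by rw [h1]
    _ = a * (b⁻¹ * c * b * c) * a := by group
    _ = a * (c * (b⁻¹ * c * b)) * a := by rw [h3]
    _ = a * c * (b⁻¹ * c * b * a) := by group
    _ = c * (a⁻¹ * c * a * a) * (a⁻¹ * (b⁻¹ * c * b)) := by rw [h2, h4]
    _ = c * (a⁻¹ * c * a * (b⁻¹ * c * b)) := by group

end group

/-- the relations in a ring -/
structure RR {M : Type*} [Ring M] (A A' B B' C P Q : M) : Prop where
  aai : A * A' = 1
  aia : A' * A = 1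
  bbi : B * B' = 1
  bib : B' * B = 1
  aa : A * A = A'
  bb : B * B = B'
  cc : C * C = 1
  pp : P * P = 1
  qq : Q * Q = 1
  pc : P * C = C * P
  qc : Q * C = C * Q
  qp : Q * P = C * (P * Q)
  ac : A * C = C * (P * A)
  ap : A * P = C * A
  bc : B * C = C * (Q * B)
  bq : B * Q = C * B
  aic : A' * C = P * A'
  aip : A' * P = C * (P * A')
  bic : B' * C = Q * B'
  biq : B' * Q = C * (Q * B')
  qa : Q * A = A' * Q
  qai : Q * A' = A * Q
  pb : P * B = B' * P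
  pbi : P * B' = B * P

theorem RR.symm {M : Type*} [Ring M] {A A' B B' C P Q : M} (h : RR A A' B B' C P Q) :
    RR B B' A A' C Q P :=
  ⟨h.bbi, h.bib, h.aai, h.aia, h.bb, h.aa, h.cc, h.qq, h.pp, h.qc, h.pc,
    by rw [h.qp, ← mul_assoc, h.cc, one_mul], h.bc, h.bq, h.ac, h.ap, h.bic, h.biq, h.aic, h.aip,
    h.pb, h.pbi, h.qa, h.qai⟩

theorem rr {M : Type*} [Ring M] {a b c : Mˣ} (h : Rel a b c) :
    RR (a : M) ((a⁻¹ : Mˣ) : M) (b : M) ((b⁻¹ : Mˣ) : M) (c : M) ((a⁻¹ * c * a : Mˣ) : M)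
      ((b⁻¹ * c * b : Mˣ) : M) := by
  have hs := rel_symm h
  have pp : (a⁻¹ * c * a) * (a⁻¹ * c * a) = 1 := KT.conj_sq (cc h)
  have qq : (b⁻¹ * c * b) * (b⁻¹ * c * b) = 1 := KT.conj_sq (cc h)
  refine ⟨?_, ?_, ?_, ?_, ?_, ?_, ?_, ?_, ?_, ?_, ?_, ?_, ?_, ?_, ?_, ?_, ?_, ?_, ?_, ?_, ?_, ?_,
    ?_, ?_⟩
  · rw [← Units.val_mul, mul_inv_cancel, Units.val_one]
  · rw [← Units.val_mul, inv_mul_cancel, Units.val_one]
  · rw [← Units.val_mul, mul_inv_cancel, Units.val_one]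
  · rw [← Units.val_mul, inv_mul_cancel, Units.val_one]
  · rw [← Units.val_mul, inv_three h.a3]
  · rw [← Units.val_mul, inv_three h.b3]
  · rw [← Units.val_mul, cc h, Units.val_one]
  · rw [← Units.val_mul, pp, Units.val_one]
  · rw [← Units.val_mul, qq, Units.val_one]
  · rw [← Units.val_mul, ← Units.val_mul, g_pc h]
  · rw [← Units.val_mul, ← Units.val_mul, g_pc hs]
  · rw [← Units.val_mul, ← Units.val_mul, ← Units.val_mul, g_qp h]
  · rw [← Units.val_mul, ← Units.val_mul, ← Units.val_mul, g_ac h]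
  · rw [← Units.val_mul, ← Units.val_mul, g_ap]
  · rw [← Units.val_mul, ← Units.val_mul, ← Units.val_mul, g_ac hs]
  · rw [← Units.val_mul, ← Units.val_mul, g_ap]
  · rw [← Units.val_mul, ← Units.val_mul, ← g_aic]
  · rw [← Units.val_mul, ← Units.val_mul, ← Units.val_mul, g_aip h]
  · rw [← Units.val_mul, ← Units.val_mul, ← g_aic]
  · rw [← Units.val_mul, ← Units.val_mul, ← Units.val_mul, g_aip hs]
  · rw [← Units.val_mul, ← Units.val_mul, g_qa h]
  · rw [← Units.val_mul, ← Units.val_mul, g_qai h]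
  · rw [← Units.val_mul, ← Units.val_mul, g_qa hs]
  · rw [← Units.val_mul, ← Units.val_mul, g_qai hs]

namespace RR

variable {M : Type*} [Ring M] {A A' B B' C P Q : M} (h : RR A A' B B' C P Q)

include h

theorem cc_ (t : M) : C * (C * t) = t := by rw [← mul_assoc, h.cc, one_mul]
theorem pp_ (t : M) : P * (P * t) = t := by rw [← mul_assoc, h.pp, one_mul]
theorem qq_ (t : M) : Q * (Q * t) = t := by rw [← mul_assoc, h.qq, one_mul]
theorem aai_ (t : M) : A * (A' * t) = t := by rw [← mul_assoc, h.aai, one_mul]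
theorem aia_ (t : M) : A' * (A * t) = t := by rw [← mul_assoc, h.aia, one_mul]
theorem bbi_ (t : M) : B * (B' * t) = t := by rw [← mul_assoc, h.bbi, one_mul]
theorem bib_ (t : M) : B' * (B * t) = t := by rw [← mul_assoc, h.bib, one_mul]
theorem aa_ (t : M) : A * (A * t) = A' * t := by rw [← mul_assoc, h.aa]
theorem bb_ (t : M) : B * (B * t) = B' * t := by rw [← mul_assoc, h.bb]
theorem pc_ (t : M) : P * (C * t) = C * (P * t) := by rw [← mul_assoc, h.pc, mul_assoc]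
theorem qc_ (t : M) : Q * (C * t) = C * (Q * t) := by rw [← mul_assoc, h.qc, mul_assoc]
theorem qp_ (t : M) : Q * (P * t) = C * (P * (Q * t)) := by
  rw [← mul_assoc, h.qp, mul_assoc, mul_assoc]
theorem ac_ (t : M) : A * (C * t) = C * (P * (A * t)) := by
  rw [← mul_assoc, h.ac, mul_assoc, mul_assoc]
theorem ap_ (t : M) : A * (P * t) = C * (A * t) := by rw [← mul_assoc, h.ap, mul_assoc]
theorem bc_ (t : M) : B * (C * t) = C * (Q * (B * t)) := by
  rw [← mul_assoc, h.bc, mul_assoc, mul_assoc]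
theorem bq_ (t : M) : B * (Q * t) = C * (B * t) := by rw [← mul_assoc, h.bq, mul_assoc]
theorem aic_ (t : M) : A' * (C * t) = P * (A' * t) := by rw [← mul_assoc, h.aic, mul_assoc]
theorem aip_ (t : M) : A' * (P * t) = C * (P * (A' * t)) := by
  rw [← mul_assoc, h.aip, mul_assoc, mul_assoc]
theorem bic_ (t : M) : B' * (C * t) = Q * (B' * t) := by rw [← mul_assoc, h.bic, mul_assoc]
theorem biq_ (t : M) : B' * (Q * t) = C * (Q * (B' * t)) := by
  rw [← mul_assoc, h.biq, mul_assoc, mul_assoc]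
theorem qa_ (t : M) : Q * (A * t) = A' * (Q * t) := by rw [← mul_assoc, h.qa, mul_assoc]
theorem qai_ (t : M) : Q * (A' * t) = A * (Q * t) := by rw [← mul_assoc, h.qai, mul_assoc]
theorem pb_ (t : M) : P * (B * t) = B' * (P * t) := by rw [← mul_assoc, h.pb, mul_assoc]
theorem pbi_ (t : M) : P * (B' * t) = B * (P * t) := by rw [← mul_assoc, h.pbi, mul_assoc]

end RR

end Pool.Agent.Helper61.KT
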